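import Pool.Agent.P.MP_e79ed6_al.Defs

set_option autoImplicit false

namespace Pool.Agent.P.MP_e79ed6_al

open Pool.Agent.P.MP_4b59b0_al Finset

theorem phi_li (K σ : Type) [Field K] [Fintype K] [Fintype σ] [DecidableEq σ] {a : ℕ}
    (ha : a ≤ Fintype.card K - 1) :
    LinearIndependent K fun (e : σ → Fin (a + 1)) (y : σ → K) => ∏ i, y i ^ (e i : ℕ) := by
  classical
  refine Fintype.linearIndependent_iff.2 fun g hg e => ?_
  let φ : (σ → Fin (a + 1)) → σ →₀ ℕ := fun e => Finsupp.equivFunOnFinite.symm fun i => e i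
  have inj : Function.Injective φ := fun e e' h =>
    funext fun i => Fin.ext (congrFun (Finsupp.equivFunOnFinite.symm.injective h) i)
  have h0 := MvPolynomial.eq_zero_of_eval_eq_zero σ K (∑ e, MvPolynomial.monomial (φ e) (g e))
    (fun v => by
      have := congrFun hg v
      simp only [Finset.sum_apply, Pi.smul_apply, smul_eq_mul, Pi.zero_apply] at this
      rw [← this, map_sum]
      refine sum_congr rfl fun e _ => ?_
      rw [MvPolynomial.eval_monomial, Finsupp.prod_fintype _ _ fun i => pow_zero _]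
      rfl)
    (Submodule.sum_mem _ fun e _ => (MvPolynomial.mem_restrictDegree _ _ _).2 fun s hs i => by
      rw [mem_singleton.1 (MvPolynomial.support_monomial_subset hs)]
      exact (Nat.lt_succ_iff.1 (e i).2).trans ha)
  have h1 := congrArg (MvPolynomial.coeff (φ e)) h0
  simpa [MvPolynomial.coeff_sum, MvPolynomial.coeff_monomial, inj.eq_iff] using h1

theorem phi_sum {K : Type} [Field K] [Fintype K] (q : Polynomial K)
    (h : q.natDegree < Fintype.card K - 1) : ∑ x, q.eval x = 0 := by
  simp only [Polynomial.eval_eq_sum_range]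
  rw [sum_comm]
  refine sum_eq_zero fun i hi => ?_
  rw [← mul_sum, FiniteField.sum_pow_lt_card_sub_one K i
    ((Nat.lt_succ_iff.1 (mem_range.1 hi)).trans_lt h), mul_zero]

theorem phi : StmtPhi := by
  intro p n a _ h
  have ha : a ≤ Fintype.card (ZMod p) - 1 := by
    rw [ZMod.card]
    have : a ≤ (n + 1) * a := Nat.le_mul_of_pos_left a (Nat.succ_pos n)
    omega
  have li := (phi_li (ZMod p) (Fin (n + 1)) ha).map' (LinearEquiv.funCongrLeft (ZMod p) (ZMod p)
    (Fin.consEquiv fun _ : Fin (n + 1) => ZMod p)).toLinearMap (LinearEquiv.ker _)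
  refine ⟨_, (finrank_span_eq_card li).trans (by simp), fun φ hφ u v => ?_⟩
  induction hφ using Submodule.span_induction with
  | mem φ hφ =>
    obtain ⟨e, rfl⟩ := hφ
    have := phi_sum (∏ i, (Polynomial.C ((Fin.cons 1 u : Fin (n + 1) → ZMod p) i) * Polynomial.X +
        Polynomial.C ((Fin.cons 0 v : Fin (n + 1) → ZMod p) i)) ^ (e i : ℕ)) (by
      refine (Polynomial.natDegree_prod_le _ _).trans_lt ((sum_le_card_nsmul _ _ a fun i _ =>
        Polynomial.natDegree_pow_le.trans ?_).trans_lt ?_)
      · exact (Nat.mul_le_mul (Nat.lt_succ_iff.1 (e i).2) Polynomial.natDegree_linear_le).trans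
          (mul_one a).le
      · rw [ZMod.card, card_univ, Fintype.card_fin, smul_eq_mul]
        omega)
    rw [← this]
    refine sum_congr rfl fun x _ => ?_
    rw [Polynomial.eval_prod]
    show ∏ i, (Fin.cons x (v + x • u) : Fin (n + 1) → ZMod p) i ^ (e i : ℕ) = _
    refine prod_congr rfl fun i _ => ?_
    refine Fin.cases ?_ (fun j => ?_) i
    · simp
    · simp only [Fin.cons_succ, Polynomial.eval_pow, Polynomial.eval_add, Polynomial.eval_mul,
        Polynomial.eval_C, Polynomial.eval_X, Pi.add_apply, Pi.smul_apply, smul_eq_mul]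
      ring
  | zero => simp
  | add f g _ _ hf hg => simp only [Pi.add_apply, sum_add_distrib, hf, hg, add_zero]
  | smul c f _ hf => simp only [Pi.smul_apply, smul_eq_mul, ← mul_sum, hf, mul_zero]

end Pool.Agent.P.MP_e79ed6_al
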