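import Pool.Agent.P.MP_e79ed6_al.Defs

/-! Girth for reduced words, and the pieces of the graph of a design. -/

set_option autoImplicit false

namespace Pool.Agent.P.MP_e79ed6_al

open Pool.Agent.P.MP_4b59b0_al Finset

theorem girth_split {Ed N S : Type} (Γ : LG Ed N S) (e : Ed) :
    ∀ (w : List (S × Bool)) (m y : N), Γ.Rd w m y →
      Walk (Adj Γ.en (Set.univ \ {e})) w.length m y ∨
        ∃ w₁ b w₂, w = w₁ ++ (Γ.lab e, b) :: w₂ ∧ Γ.Rd w₁ m (Γ.en e b) := by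
  intro w
  induction w with
  | nil => exact fun m y h => Or.inl h
  | cons c w ih =>
    rintro m y ⟨z, ⟨e', h1, h2, h3⟩, h4⟩
    by_cases he : e' = e
    · subst he
      exact Or.inr ⟨[], c.2, w, by rw [h1]; rfl, h2.symm⟩
    rcases ih z y h4 with h | ⟨w₁, b, w₂, rfl, h⟩
    · exact Or.inl ⟨z, Or.inr ⟨e', ⟨trivial, he⟩, c.2, h2, h3⟩, h⟩
    · exact Or.inr ⟨c :: w₁, b, w₂, rfl, z, ⟨e', h1, h2, h3⟩, h⟩

theorem girth_mid {S : Type} {a b c : List (S × Bool)} (h : FreeGroup.IsReduced (a ++ b ++ c)) :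
    FreeGroup.IsReduced b :=
  (List.isChain_append.1 (List.isChain_append.1 h).1).2.1

theorem girth : StmtGirth := by
  intro Ed N S Γ g hg w
  induction hn : w.length using Nat.strong_induction_on generalizing w with
  | _ n ih =>
    subst hn
    intro y hr h0 hw
    obtain _ | ⟨c, w⟩ := w
    · exact absurd rfl h0
    obtain ⟨m, ⟨e, h1, h2, h3⟩, h4⟩ := hw
    rcases girth_split Γ e w m y h4 with h | ⟨w₁, b, w₂, rfl, h⟩
    · by_contra hc
      obtain ⟨k, rfl⟩ : ∃ k, g = w.length + k := Nat.exists_eq_add_of_le (by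
        rw [List.length_cons] at hc; omega)
      have h5 := h.append (Walk.refl (R := Adj Γ.en _) (fun x => Or.inl rfl) k y)
      have h6 := h5.rev fun x z hx => hx.elim (fun h => Or.inl h.symm)
        fun ⟨e', a1, b, a2, a3⟩ => Or.inr ⟨e', a1, !b, a3, by rwa [Bool.not_not]⟩
      rw [← h2, ← h3] at h5 h6
      refine hg e trivial ?_
      cases hb : c.2
      · rw [hb] at h5; exact h5
      · rw [hb] at h6; exact h6
    by_cases hb : b = c.2
    · subst hb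
      refine (ih (c :: w₁).length (by simp) (c :: w₁) rfl y
        (girth_mid (a := []) (b := c :: w₁) hr) (by simp) ⟨m, ⟨e, h1, h2, h3⟩, h2 ▸ h⟩).trans (by simp)
    have hb' : b = !c.2 := by cases b <;> cases hc : c.2 <;> simp_all
    subst hb'
    rcases eq_or_ne w₁ [] with rfl | h5
    · exact absurd ((FreeGroup.isReduced_cons_cons.1 hr).1 h1.symm).symm hb
    · refine (ih w₁.length (by simp) w₁ rfl m
        (girth_mid (a := [c]) (b := w₁) hr) h5 (h3 ▸ h)).trans (by simp; omega)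

section

variable {K T B I V : Type} [Field K] [Fintype T] [Fintype B] [DecidableEq B]
  [DecidableEq V] [DecidableEq T] [DecidableEq I] {D : ℕ} {d : Des K T B I V D}
  {β : T × T → Equiv.Perm I} {i₀ : I}

theorem girth_step {y y' m m' : (T × I × V) ⊕ (T × B) × I} {c : (T ⊕ T) × Bool} (hne : y ≠ y')
    (h : (d.lg β i₀).St y c m) (h' : (d.lg β i₀).St y' c m') :
    m ≠ m' ∧ ∃ s t i t' j, c.1 = Sum.inl s ∧ ben d.cl' d.lam β ((t, s), i) c.2 = y ∧
      ben d.cl' d.lam β ((t, s), i) (!c.2) = m ∧ ben d.cl' d.lam β ((t', s), j) c.2 = y' ∧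
      ben d.cl' d.lam β ((t', s), j) (!c.2) = m' := by
  obtain ⟨e, a1, a2, a3⟩ := h
  obtain ⟨e', b1, b2, b3⟩ := h'
  have he : e ≠ e' := fun h => hne (by rw [← a2, ← b2, h])
  refine ⟨fun h => he ((d.lg β i₀).fold e e' _ (a3.trans (h.trans b3.symm))
    (a1.trans b1.symm)), ?_⟩
  obtain ⟨⟨t, s⟩, i⟩ := e
  obtain ⟨⟨t', s'⟩, j⟩ := e'
  have h1 := a1.trans b1.symm
  simp only [Des.lg] at a1 h1
  split_ifs at h1 with c1 c2 c2
  · obtain ⟨rfl, rfl⟩ := c1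
    obtain ⟨rfl, rfl⟩ := c2
    cases h1
    exact absurd rfl he
  · cases h1
    rw [if_neg c1] at a1
    exact ⟨s, t, i, t', j, a1.symm, a2, a3, b2, b3⟩

theorem girth_sign {y m z : (T × I × V) ⊕ (T × B) × I} {c c' : (T ⊕ T) × Bool}
    (h : (d.lg β i₀).St y c m) (h' : (d.lg β i₀).St m c' z) : c'.2 = !c.2 := by
  obtain ⟨e, -, -, a3⟩ := h
  obtain ⟨e', -, b2, -⟩ := h'
  have := a3.trans b2.symm
  cases h1 : c.2 <;> cases h2 : c'.2 <;> simp [h1, h2, Des.lg, ben] at this ⊢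

theorem girth_four (hL : Latin d.cl' β) {c₁ c₂ c₃ c₄ : (T ⊕ T) × Bool} {w : List ((T ⊕ T) × Bool)}
    {y y' z z' : (T × I × V) ⊕ (T × B) × I} (hc : c₁.2 = false)
    (hr : FreeGroup.IsReduced (c₁ :: c₂ :: c₃ :: c₄ :: w)) (hne : y ≠ y')
    (h : (d.lg β i₀).Rd (c₁ :: c₂ :: c₃ :: c₄ :: w) y z)
    (h' : (d.lg β i₀).Rd (c₁ :: c₂ :: c₃ :: c₄ :: w) y' z') : False := by
  obtain ⟨y₁, a1, y₂, a2, y₃, a3, y₄, a4, -⟩ := h
  obtain ⟨z₁, b1, z₂, b2, z₃, b3, z₄, b4, -⟩ := h'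
  have s2 := girth_sign a1 a2
  have s3 := girth_sign a2 a3
  have s4 := girth_sign a3 a4
  rw [hc] at s2
  rw [s2] at s3
  rw [s3] at s4
  obtain ⟨n1, s₁, t₁, i₁, u₁, j₁, e1, -, p1, -, q1⟩ := girth_step hne a1 b1
  obtain ⟨n2, s₂, t₂, i₂, u₂, j₂, e2, p2, p2', q2, q2'⟩ := girth_step n1 a2 b2
  obtain ⟨n3, s₃, t₃, i₃, u₃, j₃, e3, p3, p3', q3, q3'⟩ := girth_step n2 a3 b3
  obtain ⟨-, s₄, t₄, i₄, u₄, j₄, e4, p4, -, q4, -⟩ := girth_step n3 a4 b4
  simp only [FreeGroup.isReduced_cons_cons, e1, e2, e3, e4, hc, s2, s3, s4, Sum.inl.injEq,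
    Bool.not_false, Bool.not_true, Bool.false_eq_true, Bool.true_eq_false, imp_false] at hr
  obtain ⟨r1, r2, r3, -⟩ := hr
  rw [← p1, ← q1] at n1
  have k1 := p1.trans p2.symm
  have k2 := p2'.trans p3.symm
  have k3 := p3'.trans p4.symm
  have l1 := q1.trans q2.symm
  have l2 := q2'.trans q3.symm
  have l3 := q3'.trans q4.symm
  simp only [hc, s2, s3, s4, Bool.not_false, Bool.not_true, ben, Des.lam, Des.cl', Sum.inl.injEq,
    Sum.inr.injEq, Prod.mk.injEq, ne_eq] at n1 k1 k2 k3 l1 l2 l3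
  obtain ⟨rfl, rfl, k1⟩ := k1
  obtain ⟨⟨rfl, k4⟩, k2⟩ := k2
  obtain ⟨rfl, rfl, k3⟩ := k3
  obtain ⟨rfl, rfl, l1⟩ := l1
  obtain ⟨⟨rfl, -⟩, -⟩ := l2
  obtain ⟨rfl, rfl, l3⟩ := l3
  by_cases ht : t₁ = u₁
  · subst ht
    obtain rfl := d.p1 _ _ _ _ _ r1 k1 l1
    exact n1 ⟨rfl, rfl, rfl⟩
  · obtain rfl := d.p2 _ _ _ _ _ _ _ _ _ _ ht r1 r3 k1 l1 k3 l3
    exact r2 (Prod.ext_iff.1 (hL (t₁, s₂) (t₁, s₃) i₁ (by simp [Des.cl', k4]) k2)).2

end

theorem pieces : StmtPieces := by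
  intro K T B I V _ _ _ _ _ _ _ D d β i₀ hL w y y' z z' hr hne h h'
  by_contra hc
  match w, hc, hr, h, h' with
  | [], hc, _, _, _ | [_], hc, _, _, _ | [_, _], hc, _, _, _ | [_, _, _], hc, _, _, _
  | [_, _, _, _], hc, _, _, _ => simp at hc
  | c₀ :: c₁ :: c₂ :: c₃ :: c₄ :: w, _, hr, h, h' =>
    cases h0 : c₀.2
    · exact girth_four hL h0 hr hne h h'
    · obtain ⟨m, a1, a2⟩ := h
      obtain ⟨m', b1, b2⟩ := h'
      have := a2
      obtain ⟨_, a3, -⟩ := this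
      exact girth_four hL (by rw [girth_sign a1 a3, h0]; rfl)
        (FreeGroup.isReduced_cons_cons.1 hr).2 (girth_step hne a1 b1).1 a2 b2

end Pool.Agent.P.MP_e79ed6_al
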