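import Pool.Agent.P.MP_e79ed6_al.Defs

set_option autoImplicit false

namespace Pool.Agent.P.MP_e79ed6_al

open Pool.Agent.P.MP_4b59b0_al Finset

section

variable {Ed N : Type} {en : Ed → Bool → N} {Q Q' : Set Ed}

theorem ball_symm (x y : N) (h : Adj en Q x y) : Adj en Q y x :=
  h.imp Eq.symm fun ⟨e, h1, c, h2, h3⟩ => ⟨e, h1, !c, h3, by rwa [Bool.not_not]⟩

theorem ball_mono (h : Q ⊆ Q') : ∀ {n : ℕ} {x y : N}, Walk (Adj en Q) n x y →
    Walk (Adj en Q') n x y
  | 0, _, _, h' => h'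
  | _ + 1, _, _, ⟨m, h1, h2⟩ => ⟨m, h1.imp_right fun ⟨e, h3, h4⟩ => ⟨e, h h3, h4⟩, ball_mono h h2⟩

theorem ball_pad {n k : ℕ} {x y : N} (h : Walk (Adj en Q) n x y) (hk : n ≤ k) :
    Walk (Adj en Q) k x y := by
  obtain ⟨l, rfl⟩ := Nat.exists_eq_add_of_le hk
  exact h.append (Walk.refl (R := Adj en Q) (fun _ => Or.inl rfl) l y)

theorem ball_ins (e : Ed) (g : ℕ) : ∀ x y, Walk (Adj en (insert e Q)) g x y →
    Walk (Adj en Q) g x y ∨ ∃ c k l, k + l + 1 ≤ g ∧
      Walk (Adj en Q) k x (en e c) ∧ Walk (Adj en Q) l (en e (!c)) y := by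
  induction g with
  | zero => exact fun x y h => Or.inl h
  | succ g ih =>
    rintro x y ⟨m, h1, h2⟩
    by_cases h : Adj en Q x m
    · rcases ih m y h2 with h3 | ⟨c, k, l, h3, h4, h5⟩
      · exact Or.inl ⟨m, h, h3⟩
      · exact Or.inr ⟨c, k + 1, l, by omega, ⟨m, h, h4⟩, h5⟩
    · obtain ⟨e', rfl | h3, c', rfl, rfl⟩ := h1.resolve_left fun e => h (Or.inl e)
      · rcases ih _ y h2 with h3 | ⟨c, k, l, h3, -, h5⟩
        · exact Or.inr ⟨c', 0, g, by omega, rfl, h3⟩
        · by_cases e : c = c'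
          · exact Or.inr ⟨c', 0, l, by omega, rfl, e ▸ h5⟩
          · rw [show (!c) = c' by revert e; cases c <;> cases c' <;> simp] at h5
            exact Or.inl (ball_pad h5 (by omega))
      · exact (h (Or.inr ⟨e', h3, c', rfl, rfl⟩)).elim

end

theorem ball : StmtBall := by
  classical
  intro Ed N _ en Q D hD n
  induction n with
  | zero =>
    intro a
    have : {b | Walk (Adj en Q) 0 a b} = {a} := Set.ext fun b => eq_comm
    simp [this]
  | succ n ih =>
    intro a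
    let M : Finset N := insert a
      ((Set.toFinite {p : Ed × Bool | en p.1 p.2 = a}).toFinset.image fun p => en p.1 (!p.2))
    have h1 : M.card ≤ D + 1 := (card_insert_le _ _).trans (Nat.succ_le_succ (card_image_le.trans
      ((Set.ncard_eq_toFinset_card _ _).symm.trans_le (hD a))))
    have h2 : {b | Walk (Adj en Q) (n + 1) a b} ⊆ ↑(M.biUnion fun m => (ih m).1.toFinset) := by
      rintro b ⟨m, h3, h4⟩
      refine mem_coe.2 (mem_biUnion.2 ⟨m, ?_, (ih m).1.mem_toFinset.2 h4⟩)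
      rcases h3 with rfl | ⟨e, -, c, h5, rfl⟩
      · exact mem_insert_self _ _
      · exact mem_insert_of_mem (mem_image.2 ⟨(e, c), (Set.Finite.mem_toFinset _).2 h5, rfl⟩)
    refine ⟨(finite_toSet _).subset h2, (Set.ncard_le_ncard h2 (finite_toSet _)).trans ?_⟩
    rw [Set.ncard_coe_finset, pow_succ']
    exact (card_biUnion_le_card_mul _ _ _ fun m _ =>
      (Set.ncard_eq_toFinset_card _ _).symm.trans_le (ih m).2).trans (Nat.mul_le_mul_right _ h1)

theorem add : StmtAdd := by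
  intro Ed N en Q e g
  refine ⟨ball_ins e g, fun h1 h2 e' he' h => ?_⟩
  by_cases h3 : e' = e
  · subst h3
    exact h2 (ball_mono (fun x hx => hx.1.resolve_left hx.2) h)
  have h4 : e' ∈ Q := he'.resolve_left h3
  rcases ball_ins (Q := Q \ {e'}) e g _ _ (ball_mono (fun x hx => hx.1.imp_right
    fun h5 => ⟨h5, hx.2⟩) h) with h5 | ⟨c, k, l, h5, h6, h7⟩
  · exact h1 e' h4 h5
  · have h8 : Walk (Adj en Q) g (en e c) (en e (!c)) :=
      ball_pad ((((ball_mono Set.sdiff_subset h6).rev ball_symm).append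
        (Walk.single (Or.inr ⟨e', h4, true, rfl, rfl⟩))).append
        ((ball_mono Set.sdiff_subset h7).rev ball_symm)) (by omega)
    cases c
    · exact h2 (h8.rev ball_symm)
    · exact h2 h8

end Pool.Agent.P.MP_e79ed6_al
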