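import Pool.Agent.P.MP_e79ed6_al.Defs

set_option autoImplicit false

namespace Pool.Agent.P.MP_e79ed6_al

open Pool.Agent.P.MP_4b59b0_al Finset

theorem des_dir {K W : Type} [Field K] [AddCommGroup W] [Module K W] {s s' : K × W} {a b : W}
    (h : s ≠ s') (ha : s.2 - s.1 • a = s'.2 - s'.1 • a) (hb : s.2 - s.1 • b = s'.2 - s'.1 • b) :
    a = b := by
  have h1 : s.1 - s'.1 ≠ 0 := fun e => by
    have e1 := sub_eq_zero.1 e
    rw [e1] at ha
    exact h (Prod.ext e1 (sub_left_injective ha))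
  refine smul_right_injective W h1 ?_
  simp only [sub_smul]
  linear_combination (norm := module) hb - ha

theorem des_line {K W : Type} [Field K] [AddCommGroup W] [Module K W] [Fintype K] [Fintype W]
    [DecidableEq K] [DecidableEq W] (a v : W) :
    (univ.filter fun s : K × W => s.2 - s.1 • a = v) = univ.image fun x => (x, v + x • a) := by
  ext ⟨x, w⟩
  simp only [mem_filter, mem_univ, true_and, mem_image, Prod.mk.injEq, exists_eq_left,
    sub_eq_iff_eq_add]
  exact eq_comm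

theorem des_dim {p n : ℕ} (h : (2 * (n + 1)) ^ (n + 1) + 3 ≤ p) :
    p ^ n < ((p - 2) / (n + 1) + 1) ^ (n + 1) := by
  have h1 := Nat.lt_mul_div_succ (p - 2) (Nat.succ_pos n)
  have h2 : p ≤ 2 * (n + 1) * ((p - 2) / (n + 1) + 1) := by
    rw [mul_assoc]
    simp only [Nat.succ_eq_add_one] at h1
    omega
  have h3 := Nat.pow_le_pow_left h2 (n + 1)
  rw [mul_pow, pow_succ'] at h3
  exact lt_of_mul_lt_mul_left (h3.trans_lt
    (Nat.mul_lt_mul_of_pos_right (show _ < p by omega) (by positivity))) (Nat.zero_le p)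

theorem des_count {p : ℕ} (g : ℕ) (h : 3 ≤ p) : 4 * (p + 1) ^ g + 2 * p < p ^ (2 * g + 3) := by
  have h1 : (p + 1) ^ g ≤ p ^ (2 * g) := by
    rw [pow_mul]
    exact Nat.pow_le_pow_left (by nlinarith) g
  have h2 : 1 ≤ p ^ (2 * g) := Nat.one_le_pow _ _ (by omega)
  have h3 : 2 * p + 5 ≤ p ^ 3 := by nlinarith [Nat.mul_le_mul h h]
  rw [pow_add]
  nlinarith [Nat.mul_le_mul_left (p ^ (2 * g)) h3]

theorem des (h1 : StmtDir) (h2 : StmtPhi) : StmtDes := by
  intro g
  classical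
  set r := 2 * g + 3 with hr
  obtain ⟨p, hp, pp⟩ := Nat.exists_infinite_primes ((2 * (2 * r + 1 + 1 + 1)) ^ (2 * r + 1 + 1 + 1) + 3)
  have : Fact p.Prime := ⟨pp⟩
  have h3 : 3 ≤ p := le_trans (Nat.le_add_left _ _) hp
  obtain ⟨δ, d1, d2⟩ := h1 p r pp (ZMod p × (Fin (2 * r + 1 + 1) → ZMod p))
    (Fin (2 * r + 1 + 1) → ZMod p) (Fin (p ^ r)) (by simp [pow_succ']) (by simp) (by simp)
  obtain ⟨Φ, f1, f2⟩ := h2 p (2 * r + 1 + 1) ((p - 2) / (2 * r + 1 + 1 + 1))
    (by have := Nat.mul_div_le (p - 2) (2 * r + 1 + 1 + 1); omega)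
  refine ⟨ZMod p, ZMod p × (Fin (2 * r + 1 + 1) → ZMod p), ZMod p × (Fin (2 * r + 1) → ZMod p),
    Fin (p ^ r), Fin (2 * r + 1 + 1) → ZMod p, inferInstance, inferInstance, inferInstance,
    inferInstance, inferInstance, inferInstance, inferInstance, p,
    { cl := fun s => (s.1, Fin.tail s.2)
      ν := fun t s i => s.2 - s.1 • δ t i
      Φ := Φ
      p1 := fun t s s' i j h a b => d1 t (des_dir h a b)
      p2 := fun t t' s₁ s₂ s₃ s₄ i j i' j' ht h h' a b a' b' =>
        d2 t t' i j i' j' ht (des_dir h a b) (des_dir h' a' b')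
      dl := fun t i v => ?_
      dr := fun b => ?_
      sum := fun φ hφ t i v => ?_
      dim := ?_ }, ?_⟩
  · rw [des_line]
    exact card_image_le.trans (by simp)
  · refine (card_le_card_of_injOn (t := univ) (fun s => s.2 0) (by simp) ?_).trans (by simp)
    intro s hs s' hs' e
    have e1 := Prod.ext_iff.1 ((mem_filter.1 hs).2.trans (mem_filter.1 hs').2.symm)
    refine Prod.ext e1.1 ?_
    rw [← Fin.cons_self_tail s.2, ← Fin.cons_self_tail s'.2]
    exact congrArg₂ Fin.cons e e1.2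
  · rw [des_line, sum_image fun x _ y _ e => (Prod.ext_iff.1 e).1]
    exact f2 φ hφ _ _
  · rw [f1]
    refine lt_of_eq_of_lt ?_ (des_dim hp)
    simp [pow_succ']
  · rw [Fintype.card_fin]
    exact des_count g h3

end Pool.Agent.P.MP_e79ed6_al
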