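import Pool.Agent.P.MP_e79ed6_al.Defs

set_option autoImplicit false

namespace Pool.Agent.P.MP_e79ed6_al

open Pool.Agent.P.MP_4b59b0_al Finset

theorem dir : StmtDir := by
  intro p r hp T Dir I _ _ _ h1 h2 h3
  haveI : Fact p.Prime := ⟨hp⟩
  letI : Fintype (GaloisField p (r + 1)) := Fintype.ofFinite _
  have hc : Fintype.card (GaloisField p (r + 1)) = p ^ (r + 1) := by
    rw [← Nat.card_eq_fintype_card, GaloisField.card p (r + 1) r.succ_ne_zero]
  obtain ⟨enc⟩ := Function.Embedding.nonempty_of_card_le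
    (α := GaloisField p (r + 1) × GaloisField p (r + 1)) (β := Dir) (by
      rw [Fintype.card_prod, hc, ← pow_add]
      exact le_trans (le_of_eq (by ring)) h2)
  obtain ⟨ch⟩ := Function.Embedding.nonempty_of_card_le
    (α := Fin p × I) (β := GaloisField p (r + 1)) (by
      rw [Fintype.card_prod, hc, Fintype.card_fin, pow_succ']
      exact Nat.mul_le_mul_left _ h3)
  obtain ⟨idx⟩ := Function.Embedding.nonempty_of_card_le
    (α := T) (β := GaloisField p (r + 1) × GaloisField p (r + 1) × Fin p) (by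
      rw [Fintype.card_prod, Fintype.card_prod, hc, Fintype.card_fin]
      exact h1.trans_eq (by ring))
  refine ⟨fun t i => enc (ch ((idx t).2.2, i), (idx t).1 * ch ((idx t).2.2, i) + (idx t).2.1),
    fun t i j h => (Prod.ext_iff.1 (ch.injective (Prod.ext_iff.1 (enc.injective h)).1)).2,
    fun t t' i j i' j' ht e e' => ?_⟩
  obtain ⟨a1, a2⟩ := Prod.ext_iff.1 (enc.injective e)
  obtain ⟨b1, b2⟩ := Prod.ext_iff.1 (enc.injective e')
  dsimp only at a1 a2 b1 b2
  rw [← a1] at a2
  rw [← b1] at b2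
  by_contra hi
  have hz : ch ((idx t).2.2, i) - ch ((idx t).2.2, i') ≠ 0 :=
    sub_ne_zero.2 fun h => hi (Prod.ext_iff.1 (ch.injective h)).2
  have c1 : (idx t).1 = (idx t').1 := mul_right_cancel₀ hz (by linear_combination a2 - b2)
  rw [c1, add_right_inj] at a2
  exact ht (idx.injective (Prod.ext c1 (Prod.ext a2 (Prod.ext_iff.1 (ch.injective a1)).1)))

end Pool.Agent.P.MP_e79ed6_al
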