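import Pool.Agent.P.MP_e79ed6_al.Defs

set_option autoImplicit false

namespace Pool.Agent.P.MP_e79ed6_al

open Pool.Agent.P.MP_4b59b0_al Finset

theorem orb_back {n : ℕ} (κ : Equiv.Perm (Fin n)) (a : ℕ) (w : Fin n) :
    ∃ m : ℕ, (κ ^ m) ((κ ^ a) w) = w := by
  have hpos : 0 < orderOf κ := orderOf_pos κ
  refine ⟨(orderOf κ - 1) * a, ?_⟩
  rw [← Equiv.Perm.mul_apply, ← pow_add]
  have : (orderOf κ - 1) * a + a = orderOf κ * a := by
    obtain ⟨m, hm⟩ : ∃ m, orderOf κ = m + 1 := ⟨orderOf κ - 1, by omega⟩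
    rw [hm]; simp [Nat.add_mul]
  rw [this, pow_mul, pow_orderOf_eq_one, one_pow]
  rfl

theorem orb_aux {n : ℕ} (κ : Equiv.Perm (Fin n)) (k : ℕ) (w w' : Fin n) (j j' : ℕ)
    (hw : ∀ a : ℕ, w ≤ (κ ^ a) w) (hw' : ∀ a : ℕ, w' ≤ (κ ^ a) w')
    (hf : ∀ a ∈ Ioo 0 k, (κ ^ a) w' ≠ w') (hj' : j' < k) (hle : j ≤ j')
    (h : (κ ^ j) w = (κ ^ j') w') : w = w' ∧ j = j' := by
  obtain ⟨a, rfl⟩ := Nat.exists_eq_add_of_le hle
  rw [pow_add, Equiv.Perm.mul_apply] at h
  have h1 : w = (κ ^ a) w' := (κ ^ j).injective h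
  obtain ⟨m, hm⟩ := orb_back κ a w'
  have e : w = w' := by
    apply le_antisymm
    · have := hw m
      rw [h1] at this ⊢
      rw [hm] at this
      exact this
    · rw [h1]; exact hw' a
  refine ⟨e, ?_⟩
  by_contra hne
  exact hf a (mem_Ioo.2 ⟨by omega, by omega⟩) (by rw [← h1, e])

theorem orb : StmtOrb := by
  classical
  intro n κ k Bad
  set Rep : Finset (Fin n) := univ.filter fun w => ∀ a : ℕ, w ≤ (κ ^ a) w with hRep
  set Fx : Finset (Fin n) := (Ioo 0 k).biUnion fun j => univ.filter fun ω => (κ ^ j) ω = ω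
    with hFx
  refine ⟨Bad ∪ Rep, ?_, ?_⟩
  · have h1 : (Bad ∪ Rep).card ≤ Bad.card + Rep.card := card_union_le _ _
    have h2 : Rep.card ≤ (Rep \ Fx).card + Fx.card := card_le_card_sdiff_add_card
    have h3 : Fx.card ≤ ∑ j ∈ Ioo 0 k, (univ.filter fun ω => (κ ^ j) ω = ω).card :=
      card_biUnion_le
    have h4 : ((Rep \ Fx) ×ˢ range k).card ≤ (univ : Finset (Fin n)).card := by
      refine card_le_card_of_injOn (fun p => (κ ^ p.2) p.1) (fun _ _ => by simp) ?_
      rintro ⟨w, j⟩ hp ⟨w', j'⟩ hp' h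
      simp only [coe_product, Set.mem_prod, mem_coe, mem_sdiff, mem_range, hRep, hFx, mem_filter,
        mem_univ, true_and, mem_biUnion, not_exists, not_and] at hp hp' h
      rcases le_total j j' with hle | hle
      · obtain ⟨e1, e2⟩ := orb_aux κ k w w' j j' hp.1.1 hp'.1.1 hp'.1.2 hp'.2 hle h
        rw [e1, e2]
      · obtain ⟨e1, e2⟩ := orb_aux κ k w' w j' j hp'.1.1 hp.1.1 hp.1.2 hp.2 hle h.symm
        rw [e1, e2]
    rw [card_product, card_range, card_univ, Fintype.card_fin] at h4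
    calc k * (Bad ∪ Rep).card
        ≤ k * (Bad.card + ((Rep \ Fx).card +
          ∑ j ∈ Ioo 0 k, (univ.filter fun ω => (κ ^ j) ω = ω).card)) :=
          Nat.mul_le_mul_left _ (by omega)
      _ = (Rep \ Fx).card * k + k * (Bad.card +
          ∑ j ∈ Ioo 0 k, (univ.filter fun ω => (κ ^ j) ω = ω).card) := by ring
      _ ≤ _ := by omega
  · intro K _ f hf hZ
    have key : ∀ (j : ℕ) (w : Fin n), (κ ^ j) w ∈ Bad ∪ Rep → f w = 0 := by
      intro j
      induction j with
      | zero => intro w hw; exact hZ w (by simpa using hw)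
      | succ j ih =>
        intro w hw
        by_cases hb : w ∈ Bad
        · exact hZ w (mem_union_left _ hb)
        · rw [← hf w hb]
          apply ih
          rwa [pow_succ, Equiv.Perm.mul_apply] at hw
    have ex : ∀ w : Fin n, ∃ j : ℕ, (κ ^ j) w ∈ Rep := by
      intro w
      induction w using WellFoundedLT.induction with
      | ind w ih =>
        by_cases hw : w ∈ Rep
        · exact ⟨0, by simpa using hw⟩
        · simp only [hRep, mem_filter, mem_univ, true_and, not_forall, not_le] at hw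
          obtain ⟨a, ha⟩ := hw
          obtain ⟨j, hj⟩ := ih _ ha
          exact ⟨j + a, by rwa [pow_add, Equiv.Perm.mul_apply]⟩
    intro w
    obtain ⟨j, hj⟩ := ex w
    exact key j w (mem_union_right _ hj)

theorem dim : StmtDim := by
  classical
  intro K T B _ _ _ _ cl Φ hΦ n π Z h
  let L1 : (Fin n → Φ) →ₗ[K] (Fin n × B → K) :=
    { toFun := fun ξ p => ∑ s ∈ univ.filter (fun s => cl s = p.2), (ξ (π s p.1) : T → K) s
      map_add' := fun ξ η => by
        funext p
        simp [sum_add_distrib]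
      map_smul' := fun c ξ => by
        funext p
        simp [mul_sum] }
  let L2 : (Fin n → Φ) →ₗ[K] ((Σ t : T, {ω // ω ∈ Z t}) → K) :=
    { toFun := fun ξ p => (ξ p.2.1 : T → K) p.1
      map_add' := fun ξ η => by
        funext p
        simp
      map_smul' := fun c ξ => by
        funext p
        simp }
  have hinj : Function.Injective (L1.prod L2) := by
    rw [injective_iff_map_eq_zero]
    intro ξ hξ
    have h1 : L1 ξ = 0 := (Prod.ext_iff.1 hξ).1
    have h2 : L2 ξ = 0 := (Prod.ext_iff.1 hξ).2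
    have h3 := h (fun ω => (ξ ω : T → K)) (fun ω => (ξ ω).2)
      (fun ω b => congrFun h1 (ω, b)) (fun t ω hω => congrFun h2 ⟨t, ω, hω⟩)
    funext ω
    exact Subtype.ext (congrFun h3 ω)
  have hle := LinearMap.finrank_le_finrank_of_injective hinj
  rw [Module.finrank_prod, Module.finrank_pi_fintype, Module.finrank_fintype_fun_eq_card,
    Module.finrank_fintype_fun_eq_card, Fintype.card_prod, Fintype.card_sigma] at hle
  simp only [sum_const, card_univ, Fintype.card_fin, smul_eq_mul, Fintype.card_coe] at hle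
  have : n * (Fintype.card B + 1) ≤ n * Module.finrank K Φ := Nat.mul_le_mul_left _ hΦ
  rw [Nat.mul_add, Nat.mul_one] at this
  omega

theorem sumE : StmtSum := by
  classical
  intro K T B I V _ _ _ _ _ _ _ D d β i₀ t Ω π ξ pL pR hΦ hcl hagree
  have hF : ∑ s, ∑ i, ξ (pL i (d.ν t s i)) s = 0 := by
    rw [sum_comm]
    refine sum_eq_zero fun i _ => ?_
    rw [← sum_fiberwise (s := univ) (g := fun s => d.ν t s i)]
    refine sum_eq_zero fun v _ => ?_
    rw [← d.sum (ξ (pL i v)) (hΦ _) t i v]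
    refine sum_congr rfl fun s hs => ?_
    rw [(mem_filter.1 hs).2]
  have hG : ∑ s, ∑ i, ξ (π s (pR (d.cl s) (β s i))) s = 0 := by
    have : ∀ s, ∑ i, ξ (π s (pR (d.cl s) (β s i))) s = ∑ i, ξ (π s (pR (d.cl s) i)) s :=
      fun s => Equiv.sum_comp (β s) fun i => ξ (π s (pR (d.cl s) i)) s
    simp only [this]
    rw [sum_comm]
    refine sum_eq_zero fun i _ => ?_
    rw [← sum_fiberwise (s := univ) (g := d.cl)]
    refine sum_eq_zero fun b _ => ?_
    rw [← hcl (pR b i) b]
    refine sum_congr rfl fun s hs => ?_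
    rw [(mem_filter.1 hs).2]
  have hD : ∑ s, ∑ i, (ξ (π s (pR (d.cl s) (β s i))) s - ξ (pL i (d.ν t s i)) s) = 0 := by
    simp only [sum_sub_distrib, hF, hG, sub_zero]
  rw [sum_eq_single t, sum_eq_single i₀] at hD
  · exact sub_eq_zero.1 hD
  · intro i _ hi
    rw [hagree t i (fun h => hi h.2), sub_self]
  · simp
  · intro s _ hs
    refine sum_eq_zero fun i _ => ?_
    rw [hagree s i (fun h => hs h.1), sub_self]
  · simp

end Pool.Agent.P.MP_e79ed6_al
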