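import Pool.Agent.P.MP_e79ed6_al.Defs

set_option autoImplicit false

namespace Pool.Agent.P.MP_e79ed6_al

open Pool.Agent.P.MP_4b59b0_al Finset

/-- A sofic approximation with one small exceptional set. -/
theorem rank_approx {G : Type} [Group G] (hS : Sofic G) (F : Finset G) (h1 : (1 : G) ∈ F)
    (M : ℕ) (hM : 0 < M) :
    ∃ (n : ℕ) (σ : G → Equiv.Perm (Fin n)) (E : Finset (Fin n)), 0 < n ∧ M * E.card ≤ n ∧
      (∀ g ∈ F, ∀ g' ∈ F, ∀ ω, ω ∉ E → σ (g * g') ω = σ g (σ g' ω)) ∧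
      (∀ g ∈ F, g ≠ 1 → ∀ ω, ω ∉ E → σ g ω ≠ ω) := by
  classical
  have hF : (0 : ℝ) < F.card := by exact_mod_cast Finset.card_pos.2 ⟨1, h1⟩
  have hM' : (0 : ℝ) < M := by exact_mod_cast hM
  set c : ℝ := (F.card : ℝ) with hc
  set ε : ℝ := 1 / (M * (c * c + c)) with hε
  have hε0 : 0 < ε := by positivity
  obtain ⟨n, σ, a1, a2⟩ := hS F ε hε0
  have hn : 0 < n := by
    have := a1 1 h1 1 h1
    have h0 : (0 : ℝ) < ε * n := lt_of_le_of_lt (Nat.cast_nonneg _) this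
    have : (0 : ℝ) < n := (mul_pos_iff_of_pos_left hε0).1 h0
    exact_mod_cast this
  let E1 : Finset (Fin n) := (F ×ˢ F).biUnion fun p =>
    univ.filter (fun i : Fin n => σ (p.1 * p.2) i ≠ (σ p.1 * σ p.2) i)
  let E2 : Finset (Fin n) := (F.filter (· ≠ 1)).biUnion fun g =>
    univ.filter (fun i : Fin n => σ g i = i)
  have b1 : (E1.card : ℝ) ≤ c * c * (ε * n) := by
    have : (E1.card : ℝ) ≤ ∑ p ∈ F ×ˢ F,
        ((univ.filter (fun i : Fin n => σ (p.1 * p.2) i ≠ (σ p.1 * σ p.2) i)).card : ℝ) := by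
      exact_mod_cast Finset.card_biUnion_le
    refine this.trans ?_
    have h2 := Finset.sum_le_card_nsmul (F ×ˢ F) (fun p =>
      ((univ.filter (fun i : Fin n => σ (p.1 * p.2) i ≠ (σ p.1 * σ p.2) i)).card : ℝ)) (ε * n)
      (fun p hp => (a1 p.1 (mem_product.1 hp).1 p.2 (mem_product.1 hp).2).le)
    simpa [card_product, hc] using h2
  have b2 : (E2.card : ℝ) ≤ c * (ε * n) := by
    have : (E2.card : ℝ) ≤ ∑ g ∈ F.filter (· ≠ 1),
        ((univ.filter (fun i : Fin n => σ g i = i)).card : ℝ) := by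
      exact_mod_cast Finset.card_biUnion_le
    refine this.trans ?_
    have h2 := Finset.sum_le_card_nsmul (F.filter (· ≠ 1)) (fun g =>
      ((univ.filter (fun i : Fin n => σ g i = i)).card : ℝ)) (ε * n)
      (fun g hg => (a2 g (mem_filter.1 hg).1 (mem_filter.1 hg).2).le)
    refine h2.trans ?_
    rw [nsmul_eq_mul]
    refine mul_le_mul_of_nonneg_right ?_ (by positivity)
    rw [hc]
    exact_mod_cast card_filter_le _ _
  refine ⟨n, σ, E1 ∪ E2, hn, ?_, ?_, ?_⟩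
  · have h3 : ((E1 ∪ E2).card : ℝ) ≤ E1.card + E2.card := by exact_mod_cast card_union_le _ _
    have h4 : (M : ℝ) * ((c * c + c) * (ε * n)) = n := by
      rw [hε]; field_simp
    have h5 : (M : ℝ) * (E1 ∪ E2).card ≤ n := by
      rw [← h4]
      refine mul_le_mul_of_nonneg_left ?_ hM'.le
      nlinarith
    exact_mod_cast h5
  · intro g hg g' hg' ω hω
    by_contra hne
    refine hω (mem_union_left _ (mem_biUnion.2 ⟨(g, g'), mem_product.2 ⟨hg, hg'⟩, ?_⟩))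
    exact mem_filter.2 ⟨mem_univ _, hne⟩
  · intro g hg hg1 ω hω he
    refine hω (mem_union_right _ (mem_biUnion.2 ⟨g, mem_filter.2 ⟨hg, hg1⟩, ?_⟩))
    simpa using he

theorem rank (h1 : StmtOrb) (h2 : StmtDim) (h3 : StmtSum) : StmtRank := by
  intro K T B I V _ _ _ _ _ _ _ _ _ D d β i₀ G _ x γ hγ hx hS
  classical
  let h : T → G := fun t => x (Sum.inl t) * (x (Sum.inr t))⁻¹
  set τ := Fintype.card T with hτ
  set k := 2 * τ + 2 with hk
  let F : Finset G := (univ.image fun s => x (Sum.inl s)) ∪ (univ.image fun y => (γ y)⁻¹) ∪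
    (univ ×ˢ range (k + 1)).image fun p : T × ℕ => h p.1 ^ p.2
  have f1 : ∀ s, x (Sum.inl s) ∈ F := fun s =>
    mem_union_left _ (mem_union_left _ (mem_image.2 ⟨s, mem_univ _, rfl⟩))
  have f2 : ∀ y, (γ y)⁻¹ ∈ F := fun y =>
    mem_union_left _ (mem_union_right _ (mem_image.2 ⟨y, mem_univ _, rfl⟩))
  have f3 : ∀ t j, j ≤ k → h t ^ j ∈ F := fun t j hj =>
    mem_union_right _ (mem_image.2 ⟨(t, j), mem_product.2 ⟨mem_univ _, mem_range.2 (by omega)⟩, rfl⟩)
  have f4 : ∀ t, h t ∈ F := fun t => by simpa using f3 t 1 (by omega)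
  obtain ⟨n, σ, E, hn, hE, m1, m2⟩ := rank_approx hS (insert 1 F) (mem_insert_self _ _)
    (τ * (k * (k + 1)) + 1) (by omega)
  replace m1 : ∀ g ∈ F, ∀ g' ∈ F, ∀ ω, ω ∉ E → σ (g * g') ω = σ g (σ g' ω) :=
    fun g hg g' hg' => m1 g (mem_insert_of_mem hg) g' (mem_insert_of_mem hg')
  replace m2 : ∀ g ∈ F, g ≠ 1 → ∀ ω, ω ∉ E → σ g ω ≠ ω :=
    fun g hg => m2 g (mem_insert_of_mem hg)
  have p1 : ∀ t j, j + 1 ≤ k → ∀ ω, ω ∉ E → (σ (h t) ^ (j + 1)) ω = σ (h t ^ (j + 1)) ω := by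
    intro t j
    induction j with
    | zero => intro _ ω _; simp
    | succ j ih =>
      intro hj ω hω
      rw [pow_succ' (σ (h t)), pow_succ' (h t) (j + 1), m1 _ (f4 t) _ (f3 t _ (by omega)) ω hω,
        Equiv.Perm.mul_apply, ih (by omega) ω hω]
  have p2 : ∀ t, ∀ j ∈ Ioo 0 k, (univ.filter fun ω => (σ (h t) ^ j) ω = ω).card ≤ E.card := by
    intro t j hj
    obtain ⟨hj0, hjk⟩ := mem_Ioo.1 hj
    obtain ⟨j, rfl⟩ : ∃ j', j = j' + 1 := ⟨j - 1, by omega⟩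
    refine card_le_card fun ω hω => ?_
    by_contra hE'
    have := (mem_filter.1 hω).2
    rw [p1 t j hjk.le ω hE'] at this
    exact m2 _ (f3 t _ hjk.le) (hx t _ hj0) ω hE' this
  let l₀ : T → (T × I × V) ⊕ (T × B) × I := fun t => Sum.inl (t, i₀, d.ν t t i₀)
  let Bad : T → Finset (Fin n) := fun t => E.image (σ (γ (l₀ t))⁻¹)
  choose Z z1 z2 using fun t => h1 n (σ (h t)) k (Bad t)
  have key := h2 K T B d.cl d.Φ d.dim n (fun s => σ (x (Sum.inl s))) Z (by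
    intro ξ x1 x2 x3
    funext ω t
    refine z2 t K (fun ω => ξ ω t) ?_ (x3 t) ω
    intro ω' hω'
    obtain ⟨ω, rfl⟩ := (σ (γ (l₀ t))⁻¹).surjective ω'
    have hω : ω ∉ E := fun hh => hω' (mem_image_of_mem _ hh)
    have e := h3 K T B I V D d (fun s => β (t, s)) i₀ t (Fin n) (fun s => σ (x (Sum.inl s))) ξ
      (fun i v => σ (γ (Sum.inl (t, i, v)))⁻¹ ω) (fun b j => σ (γ (Sum.inr ((t, b), j)))⁻¹ ω)
      x1 x2 (by
        intro s i hsi
        have e1 := hγ ((t, s), i)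
        simp only [Des.lg, ben, Des.cl', Des.lam, if_neg hsi] at e1
        rw [← m1 _ (f1 s) _ (f2 _) ω hω, e1]
        simp)
    have e1 := hγ ((t, t), i₀)
    simp only [Des.lg, ben, Des.cl', Des.lam, and_self, if_true] at e1
    rw [← m1 _ (f1 t) _ (f2 _) ω hω, e1] at e
    show ξ (σ (h t) (σ (γ (l₀ t))⁻¹ ω)) t = ξ (σ (γ (l₀ t))⁻¹ ω) t
    rw [← m1 _ (f4 t) _ (f2 _) ω hω, ← e]
    simp [h, l₀, mul_assoc])
  have z3 : ∀ t, k * (Z t).card ≤ n + k * ((k + 1) * E.card) := by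
    intro t
    refine (z1 t).trans (Nat.add_le_add_left (Nat.mul_le_mul_left _ ?_) _)
    have q1 : (Bad t).card ≤ E.card := card_image_le
    have q2 := Finset.sum_le_card_nsmul (Ioo 0 k) _ E.card (p2 t)
    rw [Nat.card_Ioo, smul_eq_mul] at q2
    have q3 : (k - 0 - 1) * E.card ≤ k * E.card := Nat.mul_le_mul_right _ (by omega)
    nlinarith
  have z4 : k * n ≤ τ * (n + k * ((k + 1) * E.card)) := by
    refine (Nat.mul_le_mul_left k key).trans ?_
    rw [Finset.mul_sum]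
    have := Finset.sum_le_card_nsmul univ (fun t => k * (Z t).card) _ (fun t _ => z3 t)
    simpa [hτ] using this
  have z5 : τ * (k * ((k + 1) * E.card)) ≤ n := by nlinarith
  rw [mul_add] at z4
  have z6 : k * n = 2 * (τ * n) + 2 * n := by rw [hk]; ring
  have z7 : 0 ≤ τ * n := Nat.zero_le _
  omega

end Pool.Agent.P.MP_e79ed6_al
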