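import Pool.Agent.P.MP_e79ed6_al.Defs
import Pool.Agent.P.MP_4b59b0_al.Base
import Pool.Agent.P.MP_4b59b0_al.Ang

set_option autoImplicit false

namespace Pool.Agent.P.MP_e79ed6_al

open Pool.Agent.P.MP_4b59b0_al Sp FreeGroup

namespace LG

variable {Ed N S : Type} {Γ : LG Ed N S}

theorem St.inv {y z : N} {c : S × Bool} (h : Γ.St y c z) : Γ.St z (c.1, !c.2) y := by
  obtain ⟨e, h1, h2, h3⟩ := h
  exact ⟨e, h1, h3, by simpa using h2⟩

theorem St.func {y z z' : N} {c : S × Bool} (h : Γ.St y c z) (h' : Γ.St y c z') : z = z' := by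
  obtain ⟨e, h1, h2, h3⟩ := h
  obtain ⟨e', h1', h2', h3'⟩ := h'
  have := Γ.fold e e' c.2 (h2.trans h2'.symm) (h1.trans h1'.symm)
  subst this
  exact h3.symm.trans h3'

theorem rd_append {w w' : List (S × Bool)} : ∀ {y z : N},
    Γ.Rd (w ++ w') y z ↔ ∃ m, Γ.Rd w y m ∧ Γ.Rd w' m z := by
  induction w with
  | nil => intro y z; simp [Rd]
  | cons c w ih =>
    intro y z
    simp only [List.cons_append, Rd, ih]
    constructor
    · rintro ⟨m, h1, k, h2, h3⟩; exact ⟨k, ⟨m, h1, h2⟩, h3⟩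
    · rintro ⟨k, ⟨m, h1, h2⟩, h3⟩; exact ⟨m, h1, k, h2, h3⟩

theorem Rd.func {w : List (S × Bool)} : ∀ {y z z' : N}, Γ.Rd w y z → Γ.Rd w y z' → z = z' := by
  induction w with
  | nil => intro y z z' h h'; exact h.symm.trans h'
  | cons c w ih =>
    rintro y z z' ⟨m, h1, h2⟩ ⟨m', h1', h2'⟩
    cases h1.func h1'
    exact ih h2 h2'

theorem Rd.step {w w' : List (S × Bool)} (h : Red.Step w w') {y z : N} (hr : Γ.Rd w y z) :
    Γ.Rd w' y z := by
  cases h with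
  | @not l₁ l₂ x b =>
    obtain ⟨m, h1, m₁, h2, m₂, h3, h4⟩ := rd_append.1 hr
    have : m₂ = m := h3.func h2.inv
    subst this
    exact rd_append.2 ⟨_, h1, h4⟩

theorem Rd.red {w w' : List (S × Bool)} (h : Red w w') {y z : N} (hr : Γ.Rd w y z) :
    Γ.Rd w' y z := by
  induction h with
  | refl => exact hr
  | tail _ h2 ih => exact ih.step h2

theorem Rd.invRev {w : List (S × Bool)} : ∀ {y z : N}, Γ.Rd w y z → Γ.Rd (invRev w) z y := by
  induction w with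
  | nil => intro y z h; exact h.symm
  | cons c w ih =>
    rintro y z ⟨m, h1, h2⟩
    rw [invRev_cons]
    exact rd_append.2 ⟨m, ih h2, y, h1.inv, rfl⟩

variable [DecidableEq S]

variable (Γ) in
/-- The reduced word of `f` can be read from `y` to `z`. -/
def Rf (y : N) (f : FreeGroup S) (z : N) : Prop := Γ.Rd f.toWord y z

theorem Rd.rf {w : List (S × Bool)} {y z : N} (h : Γ.Rd w y z) : Γ.Rf y (FreeGroup.mk w) z := by
  unfold Rf
  rw [toWord_mk]
  exact h.red reduce.red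

theorem rf_one (y : N) : Γ.Rf y 1 y := by
  unfold Rf
  rw [toWord_one]; rfl

theorem Rf.mul {y z m : N} {f f' : FreeGroup S} (h : Γ.Rf y f m) (h' : Γ.Rf m f' z) :
    Γ.Rf y (f * f') z := by
  have := (rd_append.2 ⟨m, h, h'⟩).rf
  rwa [← mul_mk, mk_toWord, mk_toWord] at this

theorem Rf.inv {y z : N} {f : FreeGroup S} (h : Γ.Rf y f z) : Γ.Rf z f⁻¹ y := by
  unfold Rf
  rw [toWord_inv]
  exact Rd.invRev h

theorem rf_edge (e : Ed) : Γ.Rf (Γ.en e true) (of (Γ.lab e)) (Γ.en e false) := by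
  unfold Rf
  rw [toWord_of]
  exact ⟨_, ⟨e, rfl, rfl, rfl⟩, rfl⟩

theorem Rf.pre {y z : N} {a b : FreeGroup S} (h : Γ.Rf y (a * b) z)
    (hn : norm a + norm b ≤ norm (a * b)) : ∃ m, Γ.Rf y a m := by
  have e : (a * b).toWord = a.toWord ++ b.toWord :=
    (toWord_mul_sublist a b).eq_of_length_le (by simpa [FreeGroup.norm] using hn)
  unfold Rf at h
  rw [e] at h
  obtain ⟨m, h1, -⟩ := rd_append.1 h
  exact ⟨m, h1⟩

variable (Γ) in
/-- Pointed copies of the universal cover in the Cayley tree. -/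
def sd : Setoid (FreeGroup S × N) where
  r p q := Γ.Rf p.2 (p.1⁻¹ * q.1) q.2
  iseqv := ⟨fun p => by simpa using rf_one p.2, fun h => by simpa using h.inv,
    fun h h' => by simpa [mul_assoc] using h.mul h'⟩

instance : MulAction (FreeGroup S) (Quotient Γ.sd) where
  smul g := Quotient.map (fun p => (g * p.1, p.2)) (fun p q h => by
    change Γ.Rf p.2 ((g * p.1)⁻¹ * (g * q.1)) q.2
    have : Γ.Rf p.2 (p.1⁻¹ * q.1) q.2 := h
    simpa [mul_assoc] using this)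
  one_smul := by
    rintro ⟨p⟩
    exact congrArg (Quotient.mk Γ.sd) (Prod.ext (one_mul _) rfl)
  mul_smul := by
    rintro g h ⟨p⟩
    exact congrArg (Quotient.mk Γ.sd) (Prod.ext (mul_assoc _ _ _) rfl)

theorem smul_mk (g f : FreeGroup S) (y : N) :
    g • Quotient.mk Γ.sd (f, y) = Quotient.mk Γ.sd (g * f, y) := rfl

theorem mk_eq {f f' : FreeGroup S} {y z : N} :
    Quotient.mk Γ.sd (f, y) = Quotient.mk Γ.sd (f', z) ↔ Γ.Rf y (f⁻¹ * f') z := Quotient.eq

variable (Γ) in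
/-- The copies with a nontrivial stabiliser. -/
def U : SubMulAction (FreeGroup S) (Quotient Γ.sd) where
  carrier := {q | ∃ g : FreeGroup S, g ≠ 1 ∧ g • q = q}
  smul_mem' := by
    rintro c q ⟨g, h1, h2⟩
    refine ⟨c * g * c⁻¹, by simpa using h1, ?_⟩
    rw [mul_smul, inv_smul_smul, mul_smul, h2]

variable (Γ) in
/-- The subtree of a copy. -/
def Y (u : Γ.U) : Set (FreeGroup S) := {f | ∃ z, Quotient.mk Γ.sd (f, z) = u.1}

theorem Y_eqv : Eqv (FreeGroup S) Γ.Y := by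
  rintro g u f ⟨z, h⟩
  exact ⟨z, by rw [SubMulAction.val_smul, ← h]; rfl⟩

theorem Y_conv {u : Γ.U} {x y m : FreeGroup S} (hx : x ∈ Γ.Y u) (hy : y ∈ Γ.Y u)
    (h : (tree S).Bt 0 x m y) : m ∈ Γ.Y u := by
  obtain ⟨z, h1⟩ := hx
  obtain ⟨z', h2⟩ := hy
  have h3 := mk_eq.1 (h1.trans h2.symm)
  have e : x⁻¹ * y = (x⁻¹ * m) * (m⁻¹ * y) := by group
  rw [e] at h3
  obtain ⟨k, hk⟩ := h3.pre (by rw [← e]; exact h)
  exact ⟨k, (mk_eq.2 hk).symm.trans h1⟩

theorem fam {c : ℕ} (hc : Γ.Pieces c) : Fam (tree S) Γ.Y (2 * c + 6) where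
  hyp := (tree_hyp S).mono (by omega)
  pos := by omega
  ne := by
    rintro ⟨⟨f, z⟩, h⟩
    exact ⟨f, z, rfl⟩
  qc := fun u x y m hx hy h => ⟨m, Y_conv hx hy h, by rw [(tree S).d_self]; omega⟩
  ov := by
    intro u u' hne x hx y hy p hp q hq
    by_contra hlt
    obtain ⟨m, m', a1, a2, a3, a4, a5⟩ := (tree_hyp S).ov1 (t := c + 1) (x := x) (y := y) (p := p)
      (q := q) (by omega)
    obtain ⟨z, b1⟩ := Y_conv hx hy a1
    obtain ⟨z', b2⟩ := Y_conv hx hy a2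
    obtain ⟨w, b3⟩ := Y_conv hq hp a3
    obtain ⟨w', b4⟩ := Y_conv hq hp a4
    have hzw : z ≠ w := by
      rintro rfl
      exact hne (Subtype.ext (b3.symm.trans b1))
    have h1 : (tree S).d m m' ≤ c := hc _ z w z' w' isReduced_toWord hzw
      (mk_eq.1 (b1.trans b2.symm)) (mk_eq.1 (b3.trans b4.symm))
    have := (tree S).tri x m m'
    omega

theorem disp {g : ℕ} (hg : Γ.Girth g) {u : Γ.U} {r : FreeGroup S} (hr : r • u = u) (r1 : r ≠ 1) :
    ∀ y ∈ Γ.Y u, g ≤ (tree S).d y (r • y) := by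
  rintro y ⟨z, h⟩
  have h1 : Quotient.mk Γ.sd (y, z) = Quotient.mk Γ.sd (r * y, z) := by
    rw [← smul_mk, h, ← SubMulAction.val_smul, hr]
  refine hg _ z isReduced_toWord ?_ (mk_eq.1 h1)
  rw [Ne, toWord_eq_nil_iff]
  intro h2
  apply r1
  have : r = y * (y⁻¹ * (r * y)) * y⁻¹ := by group
  rw [smul_eq_mul] at h2
  rw [this, h2]; simp

theorem closed {z : N} {g : FreeGroup S} (h : Γ.Rf z g z) (g1 : g ≠ 1) : ∃ u : Γ.U, g • u = u := by
  have : g • Quotient.mk Γ.sd (1, z) = Quotient.mk Γ.sd (1, z) := by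
    rw [smul_mk, eq_comm, mk_eq]; simpa using h
  exact ⟨⟨_, g, g1, this⟩, Subtype.ext this⟩

end LG

end Pool.Agent.P.MP_e79ed6_al
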