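import Pool.Agent.P.MP_e79ed6_al.Defs

set_option autoImplicit false

namespace Pool.Agent.P.MP_e79ed6_al

open Pool.Agent.P.MP_4b59b0_al Finset

theorem switch_mono {Ed N : Type} {en en' : Ed → Bool → N} {Q Q' : Set Ed}
    (h : ∀ e ∈ Q, e ∈ Q' ∧ en e = en' e) :
    ∀ {n : ℕ} {x y : N}, Walk (Adj en Q) n x y → Walk (Adj en' Q') n x y := by
  intro n
  induction n with
  | zero => exact fun h => h
  | succ n ih =>
    rintro x y ⟨m, h1, h2⟩
    exact ⟨m, h1.imp_right fun ⟨e, he, c, h3⟩ => ⟨e, (h e he).1, c, (h e he).2 ▸ h3⟩, ih h2⟩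

theorem switch_pad {Ed N : Type} {en : Ed → Bool → N} {Q : Set Ed} {k g : ℕ} (h : k ≤ g) {x y : N}
    (w : Walk (Adj en Q) k x y) : Walk (Adj en Q) g x y := by
  obtain ⟨l, rfl⟩ := Nat.exists_eq_add_of_le h
  exact w.append (Walk.refl (R := Adj en Q) (fun _ => Or.inl rfl) l y)

theorem switch_rev {Ed N : Type} {en : Ed → Bool → N} {Q : Set Ed} {k : ℕ} {x y : N}
    (w : Walk (Adj en Q) k x y) : Walk (Adj en Q) k y x :=
  w.rev fun _ _ h => h.imp Eq.symm fun ⟨e, he, c, h1, h2⟩ => ⟨e, he, !c, h2, by simpa using h1⟩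

/-- Exchanging the ends of two far away edges. -/
theorem switch_step (h2 : StmtAdd) {Ed N : Type} {en en' : Ed → Bool → N} {P : Set Ed} {g : ℕ}
    {e₁ e₂ : Ed} (h1 : e₁ ∉ P) (he : ∀ e, e ≠ e₁ → e ≠ e₂ → en' e = en e)
    (a1 : en' e₁ true = en e₁ true) (a2 : en' e₁ false = en e₂ false)
    (a3 : en' e₂ true = en e₂ true) (a4 : en' e₂ false = en e₁ false)
    (far : ∀ c c', ¬ Walk (Adj en P) g (en e₁ c) (en e₂ c')) (hG : Gir en P g) :
    Gir en' (insert e₁ P) g := by
  have ag : ∀ e ∈ P \ {e₂}, en' e = en e := fun e h => he e (fun h' => h1 (h' ▸ h.1)) h.2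
  have up : ∀ {k x y}, k ≤ g → Walk (Adj en' (P \ {e₂})) k x y → Walk (Adj en P) g x y :=
    fun hk w => switch_pad hk (switch_mono (fun e h => ⟨h.1, ag e h⟩) w)
  have G0 : Gir en' (P \ {e₂}) g := fun e h w => hG e h.1 (by
    rw [ag e h] at w
    exact switch_mono (Q' := P \ {e}) (fun e' h' => ⟨⟨h'.1.1, h'.2⟩, ag e' h'.1⟩) w)
  have G1 := (h2 _ _ en' _ e₁ g).2 G0 fun w => far true false (a1 ▸ a2 ▸ up le_rfl w)
  by_cases h : e₂ ∈ P
  · rw [← Set.insert_sdiff_self_of_mem h, Set.insert_comm]
    refine (h2 _ _ en' _ e₂ g).2 G1 fun w => ?_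
    rcases (h2 _ _ en' _ e₁ g).1 _ _ w with w | ⟨c, k, l, hk, w, -⟩
    · exact far false true (a3 ▸ a4 ▸ switch_rev (up le_rfl w))
    · cases c
      · rw [a2, a3] at w
        exact hG e₂ h (switch_pad (by omega) (switch_mono (fun e h => ⟨h, ag e h⟩) w))
      · exact far true true (a1 ▸ a3 ▸ switch_rev (up (by omega) w))
  · rwa [Set.sdiff_singleton_eq_self h] at G1

theorem switch (h1 : StmtBall) (h2 : StmtAdd) : StmtSwitch := by
  classical
  intro L B A I _ _ cl lam D g hl hA hB hD
  suffices h : ∀ P : Finset (L × I), ∃ β : L → Equiv.Perm I, Gir (ben cl lam β) P g ∧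
      ∀ s s' i, (s, i) ∈ P → (s', i) ∈ P → cl s = cl s' → β s i = β s' i → s = s' by
    obtain ⟨β, a, b⟩ := h univ
    exact ⟨β, fun s s' i => b s s' i (mem_univ _) (mem_univ _), by simpa using a⟩
  intro P
  induction P using Finset.induction_on with
  | empty => exact ⟨1, fun e he => by simp at he, fun s s' i h => by simp at h⟩
  | insert e P he ih =>
    obtain ⟨s, i⟩ := e
    obtain ⟨β, hG, hL⟩ := ih
    have deg : ∀ a, {p : (L × I) × Bool | ben cl lam β p.1 p.2 = a}.ncard ≤ D := by
      rintro (a | ⟨b, j⟩)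
      · refine (Set.ncard_le_ncard_of_injOn (fun p => p.1) ?_ ?_ (Set.toFinite _)).trans (hA a)
        · rintro ⟨e, _ | _⟩ h <;> simp_all [ben]
        · rintro ⟨e, _ | _⟩ h ⟨e', _ | _⟩ h' h'' <;> simp_all [ben]
      · refine (Set.ncard_le_ncard_of_injOn (fun p => p.1.1) ?_ ?_ (Set.toFinite _)).trans (hB b)
        · rintro ⟨e, _ | _⟩ h <;> simp_all [ben]
        · rintro ⟨⟨t, k⟩, _ | _⟩ h ⟨⟨t', k'⟩, _ | _⟩ h' (rfl : t = t') <;>
            simp only [ben, Set.mem_ofPred_eq, Sum.inr.injEq, Prod.mk.injEq, reduceCtorEq] at h h'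
          rw [(β t).injective (h.2.trans h'.2.symm)]
    have near : ∀ c c', {k | Walk (Adj (ben cl lam β) P) g (ben cl lam β (s, i) c)
        (ben cl lam β (s, k) c')}.ncard ≤ (D + 1) ^ g := fun c c' => by
      obtain ⟨a, b⟩ := h1 _ _ (ben cl lam β) P D deg g (ben cl lam β (s, i) c)
      refine (Set.ncard_le_ncard_of_injOn (fun k => ben cl lam β (s, k) c') (fun k h => h)
        (fun k _ k' _ h => ?_) a).trans b
      cases c'
      · simpa [ben] using h
      · exact hl s (by simpa [ben] using h)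
    have cls : ∀ F : L → I, {k | ∃ t, cl t = cl s ∧ F t = k}.ncard ≤ D := fun F =>
      (Set.ncard_image_le (f := F) (s := {t | cl t = cl s})).trans (hB _)
    obtain ⟨i', far, c1, c2⟩ : ∃ i', (∀ c c', ¬ Walk (Adj (ben cl lam β) P) g
        (ben cl lam β (s, i) c) (ben cl lam β (s, i') c')) ∧
        (∀ t, cl t = cl s → β s i' ≠ β t i) ∧ ∀ t, cl t = cl s → β s i ≠ β t i' := by
      by_contra hc
      refine absurd hD (not_lt.2 ?_)
      have := fun X Y : Set I => Set.ncard_union_le X Y
      rw [← Nat.card_eq_fintype_card, ← Set.ncard_univ]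
      refine (Set.ncard_le_ncard (t := (((_ ∪ _) ∪ (_ ∪ _)) ∪ (_ ∪ _))) fun k _ => ?_).trans
        ((this _ _).trans ((add_le_add ((this _ _).trans (add_le_add
          ((this _ _).trans (add_le_add (near true true) (near true false)))
          ((this _ _).trans (add_le_add (near false true) (near false false)))))
          ((this _ _).trans (add_le_add (cls fun t => (β s).symm (β t i))
            (cls fun t => (β t).symm (β s i))))).trans (by omega)))
      by_contra hk
      simp only [Set.mem_union, Set.mem_ofPred_eq, not_or, not_exists, not_and] at hk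
      refine hc ⟨k, fun c c' => ?_, fun t ht h => hk.2.1 t ht (by simp [← h]),
        fun t ht h => hk.2.2 t ht (by simp [h])⟩
      cases c <;> cases c' <;> tauto
    have b1 : ∀ t, t ≠ s → Function.update β s (β s * Equiv.swap i i') t = β t :=
      fun t ht => Function.update_of_ne ht _ _
    have b2 : ∀ k, Function.update β s (β s * Equiv.swap i i') s k = β s (Equiv.swap i i' k) :=
      fun k => by simp
    refine ⟨Function.update β s (β s * Equiv.swap i i'), ?_, ?_⟩
    · rw [coe_insert]
      refine switch_step h2 (en := ben cl lam β) (e₂ := (s, i')) he ?_ rfl (by simp [ben]) rfl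
        (by simp [ben]) far hG
      rintro ⟨t, k⟩ n1 n2
      funext c
      cases c
      · by_cases ht : t = s
        · subst ht
          simp only [ben, b2]
          rw [Equiv.swap_apply_of_ne_of_ne (by simpa using n1) (by simpa using n2)]
        · simp only [ben, b1 t ht]
      · rfl
    · have key : ∀ t k, t ≠ s → (s, k) ∈ insert (s, i) P → (t, k) ∈ insert (s, i) P →
          cl t = cl s → β s (Equiv.swap i i' k) ≠ β t k := fun t k ht m1 m2 hc h => by
        by_cases k1 : k = i
        · rw [k1, Equiv.swap_apply_left] at h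
          exact c1 t hc h
        · by_cases k2 : k = i'
          · rw [k2, Equiv.swap_apply_right] at h
            exact c2 t hc h
          · rw [Equiv.swap_apply_of_ne_of_ne k1 k2] at h
            exact ht (hL t s k (by simpa [ht] using m2) (by simpa [k1] using m1) hc h.symm)
      intro t t' k m1 m2 hc h
      by_cases n1 : t = s <;> by_cases n2 : t' = s
      · rw [n1, n2]
      · subst n1
        rw [b2, b1 t' n2] at h
        exact (key t' k n2 m1 m2 hc.symm h).elim
      · subst n2
        rw [b2, b1 t n1] at h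
        exact (key t k n1 m2 m1 hc h.symm).elim
      · rw [b1 t n1, b1 t' n2] at h
        exact hL t t' k (by simpa [n1] using m1) (by simpa [n2] using m2) hc h

end Pool.Agent.P.MP_e79ed6_al
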