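import Pool.Agent.P.MP_4b59b0_al.Defs

set_option autoImplicit false

namespace Pool.Agent.P.MP_e79ed6_al

open Pool.Agent.P.MP_4b59b0_al Finset

/-- Hyperbolicity, as in the frozen statement. -/
def IsHyp (G : Type) [Group G] : Prop :=
  ∃ S : Finset G, Subgroup.closure (S : Set G) = ⊤ ∧
    ∃ ℓ : G → ℕ,
      (∀ g : G, ℓ g = sInf {n : ℕ | ∃ l : List G, l.length = n ∧
          (∀ s ∈ l, s ∈ S ∨ s⁻¹ ∈ S) ∧ l.prod = g}) ∧
      ∃ δ : ℕ, ∀ x y z w : G,
        ((ℓ (w⁻¹ * x) : ℤ) + (ℓ (w⁻¹ * z) : ℤ) - (ℓ (x⁻¹ * z) : ℤ)) ≥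
          min ((ℓ (w⁻¹ * x) : ℤ) + (ℓ (w⁻¹ * y) : ℤ) - (ℓ (x⁻¹ * y) : ℤ))
              ((ℓ (w⁻¹ * y) : ℤ) + (ℓ (w⁻¹ * z) : ℤ) - (ℓ (y⁻¹ * z) : ℤ))
            - 2 * (δ : ℤ)

/-- Soficity, as in the frozen statement. -/
def Sofic (G : Type) [Group G] : Prop :=
  ∀ F : Finset G, ∀ ε : ℝ, 0 < ε →
    ∃ n : ℕ, ∃ σ : G → Equiv.Perm (Fin n),
      (∀ g ∈ F, ∀ h ∈ F,
        (((Finset.univ.filter (fun i : Fin n => σ (g * h) i ≠ (σ g * σ h) i)).card : ℕ) : ℝ)
          < ε * (n : ℝ)) ∧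
      (∀ g ∈ F, g ≠ 1 →
        (((Finset.univ.filter (fun i : Fin n => σ g i = i)).card : ℕ) : ℝ) < ε * (n : ℝ))

/-! ### Labelled graphs -/

/-- A folded labelled graph: the edge `e` goes from `en e true` to `en e false`. -/
structure LG (Ed N S : Type) where
  en : Ed → Bool → N
  lab : Ed → S
  fold : ∀ e e' b, en e b = en e' b → lab e = lab e' → e = e'

namespace LG

variable {Ed N S : Type} (Γ : LG Ed N S)

/-- The letter `c` can be read from `y` to `z`. -/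
def St (y : N) (c : S × Bool) (z : N) : Prop :=
  ∃ e, Γ.lab e = c.1 ∧ Γ.en e c.2 = y ∧ Γ.en e (!c.2) = z

/-- The word can be read from `y` to `z`. -/
def Rd : List (S × Bool) → N → N → Prop
  | [], y, z => y = z
  | c :: w, y, z => ∃ m, Γ.St y c m ∧ Rd w m z

/-- Closed reduced paths are long. -/
def Girth (g : ℕ) : Prop :=
  ∀ w y, FreeGroup.IsReduced w → w ≠ [] → Γ.Rd w y y → g ≤ w.length

/-- Reduced words which can be read from two different vertices are short. -/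
def Pieces (c : ℕ) : Prop :=
  ∀ w y y' z z', FreeGroup.IsReduced w → y ≠ y' → Γ.Rd w y z → Γ.Rd w y' z' → w.length ≤ c

end LG

/-- Equal or joined by an edge in `Q`. -/
def Adj {Ed N : Type} (en : Ed → Bool → N) (Q : Set Ed) (a b : N) : Prop :=
  a = b ∨ ∃ e ∈ Q, ∃ c, en e c = a ∧ en e (!c) = b

/-- No edge of `Q` lies on a short cycle. -/
def Gir {Ed N : Type} (en : Ed → Bool → N) (Q : Set Ed) (g : ℕ) : Prop :=
  ∀ e ∈ Q, ¬ Walk (Adj en (Q \ {e})) g (en e true) (en e false)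

/-- The bipartite graph of the switching lemma. -/
def ben {L B A I : Type} (cl : L → B) (lam : L → I → A) (β : L → Equiv.Perm I) (e : L × I) :
    Bool → A ⊕ B × I
  | true => Sum.inl (lam e.1 e.2)
  | false => Sum.inr (cl e.1, β e.1 e.2)

/-- Different letters of a class never agree. -/
def Latin {L B I : Type} (cl : L → B) (β : L → Equiv.Perm I) : Prop :=
  ∀ s s' i, cl s = cl s' → β s i = β s' i → s = s'

/-! ### The design -/

/-- The finite geometry: `ν t s i` is the line through the point `s` with the `i`-th direction of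
the family `t`; `cl s` is the class of `s`; the functions in `Φ` sum to zero on lines. -/
structure Des (K T B I V : Type) [Field K] [Fintype T] [Fintype B] [DecidableEq B] [DecidableEq V]
    (D : ℕ) where
  cl : T → B
  ν : T → T → I → V
  Φ : Submodule K (T → K)
  p1 : ∀ t s s' i j, s ≠ s' → ν t s i = ν t s' i → ν t s j = ν t s' j → i = j
  p2 : ∀ t t' s₁ s₂ s₃ s₄ i j i' j', t ≠ t' → s₁ ≠ s₂ → s₃ ≠ s₄ → ν t s₁ i = ν t s₂ i →
    ν t' s₁ j = ν t' s₂ j → ν t s₃ i' = ν t s₄ i' → ν t' s₃ j' = ν t' s₄ j' → i = i'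
  dl : ∀ t i v, (univ.filter fun s => ν t s i = v).card ≤ D
  dr : ∀ b, (univ.filter fun s => cl s = b).card ≤ D
  sum : ∀ φ ∈ Φ, ∀ t i v, ∑ s ∈ univ.filter (fun s => ν t s i = v), φ s = 0
  dim : Fintype.card B < Module.finrank K Φ

namespace Des

variable {K T B I V : Type} [Field K] [Fintype T] [Fintype B] [DecidableEq B] [DecidableEq V]
  {D : ℕ} (d : Des K T B I V D)

/-- Classes in the disjoint union of the components. -/
def cl' (p : T × T) : T × B := (p.1, d.cl p.2)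

/-- Lines in the disjoint union of the components. -/
def lam (p : T × T) (i : I) : T × I × V := (p.1, i, d.ν p.1 p.2 i)

/-- The labelled graph: in the component `t` the edge `(s, i)` has label `s`, except for the edge
`(t, i₀)` which has a new label. -/
def lg [DecidableEq T] [DecidableEq I] (β : T × T → Equiv.Perm I) (i₀ : I) :
    LG ((T × T) × I) ((T × I × V) ⊕ (T × B) × I) (T ⊕ T) where
  en := ben d.cl' d.lam β
  lab e := if e.1.2 = e.1.1 ∧ e.2 = i₀ then Sum.inr e.1.1 else Sum.inl e.1.2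
  fold := by
    rintro ⟨⟨t, s⟩, i⟩ ⟨⟨t', s'⟩, i'⟩ b h1 h2
    cases b
    · simp only [ben, cl', Sum.inr.injEq, Prod.mk.injEq] at h1
      obtain ⟨⟨rfl, -⟩, h3⟩ := h1
      dsimp only at h2
      split_ifs at h2 with c1 c2 c2
      · obtain ⟨rfl, rfl⟩ := c1; obtain ⟨rfl, rfl⟩ := c2; rfl
      · cases h2; rw [(β _).injective h3]
    · simp only [ben, lam, Sum.inl.injEq, Prod.mk.injEq] at h1
      obtain ⟨rfl, rfl, -⟩ := h1
      dsimp only at h2
      split_ifs at h2 with c1 c2 c2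
      · rw [c1.1, c2.1]
      · cases h2; rfl

end Des

/-! ### Statements: combinatorics -/

/-- Families of directions meeting pairwise in at most one element. -/
def StmtDir : Prop := ∀ (p r : ℕ), p.Prime → ∀ (T Dir I : Type) [Fintype T] [Fintype Dir]
  [Fintype I], Fintype.card T ≤ p ^ (2 * r + 3) → p ^ (2 * r + 2) ≤ Fintype.card Dir →
  Fintype.card I ≤ p ^ r → ∃ δ : T → I → Dir, (∀ t, Function.Injective (δ t)) ∧
    ∀ t t' i j i' j', t ≠ t' → δ t i = δ t' j → δ t i' = δ t' j' → i = i'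

/-- Polynomials of low degree sum to zero on lines. -/
def StmtPhi : Prop := ∀ (p n a : ℕ) [Fact p.Prime], (n + 1) * a + 2 ≤ p →
  ∃ Φ : Submodule (ZMod p) (ZMod p × (Fin n → ZMod p) → ZMod p),
    Module.finrank (ZMod p) Φ = (a + 1) ^ (n + 1) ∧
    ∀ φ ∈ Φ, ∀ u v : Fin n → ZMod p, ∑ x : ZMod p, φ (x, v + x • u) = 0

/-- Designs with many directions exist. -/
def StmtDes : Prop := ∀ g : ℕ, ∃ (K T B I V : Type) (_ : Field K) (_ : Fintype T) (_ : Fintype B)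
  (_ : Fintype I) (_ : Fintype V) (_ : DecidableEq B) (_ : DecidableEq V) (D : ℕ)
  (_ : Des K T B I V D), 4 * (D + 1) ^ g + 2 * D < Fintype.card I

/-- Balls in a graph of bounded degree. -/
def StmtBall : Prop := ∀ (Ed N : Type) [Finite Ed] (en : Ed → Bool → N) (Q : Set Ed) (D : ℕ),
  (∀ a, {p : Ed × Bool | en p.1 p.2 = a}.ncard ≤ D) → ∀ (n : ℕ) (a : N),
  {b | Walk (Adj en Q) n a b}.Finite ∧ {b | Walk (Adj en Q) n a b}.ncard ≤ (D + 1) ^ n

/-- Adding one edge. -/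
def StmtAdd : Prop := ∀ (Ed N : Type) (en : Ed → Bool → N) (Q : Set Ed) (e : Ed) (g : ℕ),
  (∀ x y, Walk (Adj en (insert e Q)) g x y → Walk (Adj en Q) g x y ∨ ∃ c k l, k + l + 1 ≤ g ∧
    Walk (Adj en Q) k x (en e c) ∧ Walk (Adj en Q) l (en e (!c)) y) ∧
  (Gir en Q g → ¬ Walk (Adj en Q) g (en e true) (en e false) → Gir en (insert e Q) g)

/-- The switching lemma. -/
def StmtSwitch : Prop := ∀ (L B A I : Type) [Fintype L] [Fintype I] (cl : L → B) (lam : L → I → A)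
  (D g : ℕ), (∀ s, Function.Injective (lam s)) →
  (∀ a, {e : L × I | lam e.1 e.2 = a}.ncard ≤ D) → (∀ b, {s | cl s = b}.ncard ≤ D) →
  4 * (D + 1) ^ g + 2 * D < Fintype.card I →
  ∃ β : L → Equiv.Perm I, Latin cl β ∧ Gir (ben cl lam β) Set.univ g

/-- From edges to reduced words. -/
def StmtGirth : Prop := ∀ (Ed N S : Type) (Γ : LG Ed N S) (g : ℕ),
  Gir Γ.en Set.univ g → Γ.Girth g

/-- The pieces of the graph of a design. -/
def StmtPieces : Prop := ∀ (K T B I V : Type) [Field K] [Fintype T] [Fintype B] [DecidableEq B]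
  [DecidableEq V] [DecidableEq T] [DecidableEq I] (D : ℕ) (d : Des K T B I V D)
  (β : T × T → Equiv.Perm I) (i₀ : I), Latin d.cl' β → (d.lg β i₀).Pieces 4

/-! ### Statements: the rank count -/

/-- Almost invariant functions are determined by few values. -/
def StmtOrb : Prop := ∀ (n : ℕ) (κ : Equiv.Perm (Fin n)) (k : ℕ) (Bad : Finset (Fin n)),
  ∃ Z : Finset (Fin n),
    k * Z.card ≤ n + k * (Bad.card +
      ∑ j ∈ Ioo 0 k, (univ.filter fun ω => (κ ^ j) ω = ω).card) ∧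
    ∀ (K : Type) [Zero K] (f : Fin n → K), (∀ ω, ω ∉ Bad → f (κ ω) = f ω) →
      (∀ ω ∈ Z, f ω = 0) → ∀ ω, f ω = 0

/-- The dimension count. -/
def StmtDim : Prop := ∀ (K T B : Type) [Field K] [Fintype T] [Fintype B] [DecidableEq B]
  (cl : T → B) (Φ : Submodule K (T → K)), Fintype.card B < Module.finrank K Φ →
  ∀ (n : ℕ) (π : T → Fin n → Fin n) (Z : T → Finset (Fin n)),
  (∀ ξ : Fin n → T → K, (∀ ω, ξ ω ∈ Φ) →
    (∀ ω b, ∑ s ∈ univ.filter (fun s => cl s = b), ξ (π s ω) s = 0) →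
    (∀ t, ∀ ω ∈ Z t, ξ ω t = 0) → ξ = 0) → n ≤ ∑ t, (Z t).card

/-- Double counting over the edges of the component `t`. -/
def StmtSum : Prop := ∀ (K T B I V : Type) [Field K] [Fintype T] [Fintype B] [Fintype I]
  [Fintype V] [DecidableEq B] [DecidableEq V] (D : ℕ) (d : Des K T B I V D)
  (β : T → Equiv.Perm I) (i₀ : I) (t : T) (Ω : Type) (π : T → Ω → Ω) (ξ : Ω → T → K)
  (pL : I → V → Ω) (pR : B → I → Ω), (∀ ω, ξ ω ∈ d.Φ) →
  (∀ ω b, ∑ s ∈ univ.filter (fun s => d.cl s = b), ξ (π s ω) s = 0) →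
  (∀ s i, ¬ (s = t ∧ i = i₀) → π s (pR (d.cl s) (β s i)) = pL i (d.ν t s i)) →
  ξ (π t (pR (d.cl t) (β t i₀))) t = ξ (pL i₀ (d.ν t t i₀)) t

/-- A group in which the graph of a design closes up is not sofic. -/
def StmtRank : Prop := ∀ (K T B I V : Type) [Field K] [Fintype T] [Fintype B] [Fintype I]
  [Fintype V] [DecidableEq B] [DecidableEq V] [DecidableEq T] [DecidableEq I] (D : ℕ)
  (d : Des K T B I V D) (β : T × T → Equiv.Perm I) (i₀ : I) (G : Type) [Group G]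
  (x : T ⊕ T → G) (γ : (T × I × V) ⊕ (T × B) × I → G),
  (∀ e, γ ((d.lg β i₀).en e false) = γ ((d.lg β i₀).en e true) * x ((d.lg β i₀).lab e)) →
  (∀ t k, 0 < k → (x (Sum.inl t) * (x (Sum.inr t))⁻¹) ^ k ≠ 1) → ¬ Sofic G

/-! ### Statements: small cancellation -/

/-- Hyperbolicity passes along quasi-isometries. -/
def StmtQI : Prop := ∀ (V V' : Type) (X : Sp V) (X' : Sp V') (φ : V → V') (δ C r : ℕ),
  X'.Hyp δ → (∀ a b, X'.d (φ a) (φ b) ≤ X.d a b) → (∀ a b, X.d a b ≤ C * X'.d (φ a) (φ b)) →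
  (∀ c, ∃ a, X'.d c (φ a) ≤ r) → ∃ δ', X.Hyp δ'

/-- The word metric. -/
def StmtWord : Prop := ∀ (S G : Type) [Fintype S] [DecidableEq S] [Group G]
  (π : FreeGroup S →* G), Function.Surjective π → ∃ X : Sp G,
    (∀ f f', X.d (π f) (π f') ≤ FreeGroup.norm (f⁻¹ * f')) ∧
    (∀ f b, ∃ f', π f' = b ∧ X.d (π f) b = FreeGroup.norm (f⁻¹ * f')) ∧
    ((∃ δ, X.Hyp δ) → IsHyp G)

/-- The cone-off with some more information. -/
def StmtCone : Prop := ∃ δ₀ K : ℕ, ∀ ε : ℕ, 1 ≤ ε → ∃ M C : ℕ, 100 * ε ≤ M ∧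
  ∀ (V : Type) (X : Sp V) (H : Type) [Group H] [MulAction H V] (U : Type) [MulAction H U]
    (Y : U → Set V), Fam X Y ε → X.Iso H → Eqv H Y →
    ∃ Z : ConeOff X H Y δ₀ K ε (100 * ε) 1 M, (∀ c, ∃ x, Z.Z.d c (Z.ι x) ≤ 2) ∧
      ∀ (f : V → V → ℕ) (C₀ : ℕ), (∀ x y z, f x z ≤ f x y + f y z) → (∀ x y, f x y ≤ X.d x y) →
        (∀ u, ∀ x ∈ Y u, ∀ y ∈ Y u, f x y ≤ C₀) →
        ∀ x y, f x y ≤ (C + C₀) * Z.Z.d (Z.ι x) (Z.ι y)

/-- Graphical small cancellation with bounded pieces and large girth. -/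
def StmtSC : Prop := ∀ c : ℕ, ∃ g : ℕ, ∀ (Ed N S : Type) [Fintype N] [Fintype S] [DecidableEq S]
  (Γ : LG Ed N S), Γ.Girth g → Γ.Pieces c →
  ∃ (G : Type) (_ : Group G) (x : S → G) (γ : N → G), IsHyp G ∧
    (∀ e, γ (Γ.en e false) = γ (Γ.en e true) * x (Γ.lab e)) ∧
    ∀ s s' k, s ≠ s' → 0 < k → (x s * (x s')⁻¹) ^ k ≠ 1

/-- The final assembly. -/
theorem final (h1 : StmtDes) (h2 : StmtSwitch) (h3 : StmtGirth) (h4 : StmtPieces) (h5 : StmtRank)
    (h6 : StmtSC) : ∃ (G : Type) (_ : Group G), IsHyp G ∧ ¬ Sofic G := by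
  classical
  obtain ⟨g, hg⟩ := h6 4
  obtain ⟨K, T, B, I, V, _, _, _, _, _, _, _, D, d, hD⟩ := h1 g
  obtain ⟨i₀⟩ : Nonempty I := Fintype.card_pos_iff.1 (by omega)
  obtain ⟨β, b1, b2⟩ := h2 (T × T) (T × B) (T × I × V) I d.cl' d.lam D g
    (fun s i j h => by simpa [Des.lam] using (Prod.ext_iff.1 (Prod.ext_iff.1 h).2).1)
    (by
      rintro ⟨t, i, v⟩
      refine le_trans ?_ (d.dl t i v)
      rw [← Set.ncard_coe_finset]
      refine Set.ncard_le_ncard_of_injOn (fun e => e.1.2) ?_ ?_ (Set.toFinite _)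
      · rintro ⟨⟨t', s⟩, i'⟩ h
        simp only [Des.lam, Set.mem_ofPred_eq, Prod.mk.injEq] at h
        obtain ⟨rfl, rfl, h⟩ := h
        simpa using h
      · rintro ⟨⟨t', s⟩, i'⟩ h ⟨⟨t'', s'⟩, i''⟩ h' e
        simp only [Des.lam, Set.mem_ofPred_eq, Prod.mk.injEq] at h h' e
        obtain ⟨rfl, rfl, -⟩ := h
        obtain ⟨rfl, rfl, -⟩ := h'
        rw [e])
    (by
      rintro ⟨t, b⟩
      refine le_trans ?_ (d.dr b)
      rw [← Set.ncard_coe_finset]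
      refine Set.ncard_le_ncard_of_injOn (fun e => e.2) ?_ ?_ (Set.toFinite _)
      · rintro ⟨t', s⟩ h
        simp only [Des.cl', Set.mem_ofPred_eq, Prod.mk.injEq] at h
        simpa using h.2
      · rintro ⟨t', s⟩ h ⟨t'', s'⟩ h' e
        simp only [Des.cl', Set.mem_ofPred_eq, Prod.mk.injEq] at h h' e
        rw [h.1, h'.1, e])
    hD
  obtain ⟨G, _, x, γ, a1, a2, a3⟩ := hg _ _ _ (d.lg β i₀) (h3 _ _ _ _ g b2)
    (h4 K T B I V D d β i₀ b1)
  exact ⟨G, inferInstance, a1, h5 K T B I V D d β i₀ G x γ a2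
    fun t k hk => a3 _ _ k (by simp) hk⟩

end Pool.Agent.P.MP_e79ed6_al
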