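import Pool.Agent.P.MP_e79ed6_al.Main

/-! Graphical small cancellation with weights in the centre of a finite group. -/

set_option autoImplicit false

namespace Pool.Agent.P.MP_e79ed6_al.Df

open Pool.Agent.P.MP_4b59b0_al Sp FreeGroup LG

section cover

variable {Ed N S A : Type} [CommGroup A] (Γ : LG Ed N S) (α : Ed → A)

/-- The cover given by weights on the edges. -/
def cov : LG (Ed × A) (N × A) S where
  en e b := (Γ.en e.1 b, if b then e.2 else e.2 * α e.1)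
  lab e := Γ.lab e.1
  fold := by
    rintro ⟨e, a⟩ ⟨e', a'⟩ b h1 h2
    simp only [Prod.mk.injEq] at h1 h2 ⊢
    have := Γ.fold e e' b h1.1 h2
    subst this
    cases b <;> simpa using h1.2

variable {Γ α}

omit [CommGroup A] in
theorem rd_map {Ed' N' : Type} {Γ' : LG Ed' N' S} (φ : N → N') (ψ : Ed → Ed')
    (h1 : ∀ e, Γ'.lab (ψ e) = Γ.lab e) (h2 : ∀ e b, φ (Γ.en e b) = Γ'.en (ψ e) b)
    {w : List (S × Bool)} : ∀ {y z : N}, Γ.Rd w y z → Γ'.Rd w (φ y) (φ z) := by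
  induction w with
  | nil => intro y z h; exact congrArg φ h
  | cons c w ih =>
    rintro y z ⟨m, ⟨e, a1, a2, a3⟩, h⟩
    exact ⟨φ m, ⟨ψ e, (h1 e).trans a1, by rw [← h2, a2], by rw [← h2, a3]⟩, ih h⟩

theorem rd_lift {w : List (S × Bool)} : ∀ {y z : N} (a : A), Γ.Rd w y z →
    ∃ a', (cov Γ α).Rd w (y, a) (z, a') := by
  induction w with
  | nil => intro y z a h; exact ⟨a, congrArg (·, a) h⟩
  | cons c w ih =>
    rintro y z a ⟨m, ⟨e, a1, a2, a3⟩, h⟩
    obtain ⟨s, b⟩ := c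
    cases b
    · obtain ⟨a', h'⟩ := ih (a * (α e)⁻¹) h
      exact ⟨a', _, ⟨(e, a * (α e)⁻¹), a1, by simp [cov, ← a2], by simp [cov, ← a3]⟩, h'⟩
    · obtain ⟨a', h'⟩ := ih (a * α e) h
      exact ⟨a', _, ⟨(e, a), a1, by simp [cov, ← a2], by simp [cov, ← a3]⟩, h'⟩

variable [DecidableEq S]

theorem rf_down {y z : N × A} {f : FreeGroup S} (h : (cov Γ α).Rf y f z) : Γ.Rf y.1 f z.1 :=
  rd_map (Γ := cov Γ α) (Γ' := Γ) Prod.fst Prod.fst (fun _ => rfl) (fun _ _ => rfl) h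

theorem rf_shift {y z : N} {a a' : A} {f : FreeGroup S} (h : (cov Γ α).Rf (y, a) f (z, a'))
    (k : A) : (cov Γ α).Rf (y, k * a) f (z, k * a') :=
  rd_map (Γ := cov Γ α) (Γ' := cov Γ α) (fun p => (p.1, k * p.2)) (fun p => (p.1, k * p.2))
    (fun _ => rfl) (fun e b => by cases b <;> simp [cov, mul_assoc]) h

end cover

theorem norm_hom {S T : Type} [DecidableEq S] [DecidableEq T] (ψ : FreeGroup S →* FreeGroup T)
    (h : ∀ s, norm (ψ (of s)) ≤ 1) (f : FreeGroup S) : norm (ψ f) ≤ norm f := by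
  suffices ∀ w : List (S × Bool), norm (ψ (FreeGroup.mk w)) ≤ w.length by
    have := this f.toWord
    rwa [mk_toWord] at this
  intro w
  induction w with
  | nil => rw [← one_eq_mk, ψ.map_one]; rfl
  | cons c w ih =>
    have e : FreeGroup.mk (c :: w) = FreeGroup.mk [c] * FreeGroup.mk w := rfl
    have h1 : norm (ψ (FreeGroup.mk [c])) ≤ 1 := by
      obtain ⟨s, _ | _⟩ := c
      · have : FreeGroup.mk [(s, false)] = (of s)⁻¹ := rfl
        rw [this, ψ.map_inv, norm_inv_eq]; exact h s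
      · exact h s
    have := norm_mul_le (ψ (FreeGroup.mk [c])) (ψ (FreeGroup.mk w))
    rw [e, ψ.map_mul, List.length_cons]
    omega

/-- Hyperbolicity passes along quasi-isometries with an additive constant. -/
theorem qi' {V V' : Type} (X : Sp V) (X' : Sp V') (φ : V → V') (δ C r : ℕ) (hδ : X'.Hyp δ)
    (h1 : ∀ a b, X'.d (φ a) (φ b) ≤ X.d a b) (h2 : ∀ a b, X.d a b ≤ C * X'.d (φ a) (φ b) + 2)
    (h3 : ∀ c, ∃ a, X'.d c (φ a) ≤ r) : ∃ δ', X.Hyp δ' := by
  obtain ⟨δ₀, K, H⟩ := bowditch (C * (3 * r + 3 * δ + 1) + 2)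
  have hd : ∀ a b, X'.d (φ a) (φ b) ≤ 3 * r + 3 * δ + 1 →
      X.d a b ≤ C * (3 * r + 3 * δ + 1) + 2 :=
    fun a b h => (h2 a b).trans (Nat.add_le_add_right (Nat.mul_le_mul_left _ h) _)
  choose p hp using h3
  refine ⟨δ₀, (H V X (fun a b => {c | X'.Bt (2 * r) (φ a) (φ c) (φ b)}) (fun a b c h => h.symm)
    (fun a b => Sp.bt_left _ _ _) (fun a b => ?_) (fun a b e c hc => ?_)
    (fun a b c hab hc => ?_)).1⟩
  · obtain ⟨γ, g0, gn, hγ⟩ := X'.exists_geo (φ a) (φ b)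
    have hm : ∀ i ≤ X'.d (φ a) (φ b), X'.Bt (2 * r) (φ a) (φ (p (γ i))) (φ b) := fun i hi => by
      have := (hγ.bt (Nat.zero_le i) hi le_rfl).move_mid (hp (γ i))
      rwa [g0, gn, zero_add] at this
    have hc : ∀ i ≤ X'.d (φ a) (φ b), Relation.ReflTransGen (fun c c' =>
        c' ∈ {c | X'.Bt (2 * r) (φ a) (φ c) (φ b)} ∧ X.d c c' ≤ C * (3 * r + 3 * δ + 1) + 2) a
        (p (γ i)) := by
      intro i
      induction i with
      | zero =>
        intro hi
        refine Relation.ReflTransGen.single ⟨hm 0 hi, hd _ _ ?_⟩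
        have := hp (γ 0)
        rw [g0] at this ⊢
        omega
      | succ i ih =>
        intro hi
        refine (ih (by omega)).tail ⟨hm _ hi, hd _ _ ?_⟩
        have a1 := hp (γ i)
        have a2 := hp (γ (i + 1))
        have a3 := hγ i (i + 1) (by omega) hi
        have a4 := X'.tri (φ (p (γ i))) (γ i) (φ (p (γ (i + 1))))
        have a5 := X'.tri (γ i) (γ (i + 1)) (φ (p (γ (i + 1))))
        have a6 := X'.symm (φ (p (γ i))) (γ i)
        omega
    refine (hc _ le_rfl).tail ⟨Sp.bt_right _ _ _, hd _ _ ?_⟩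
    have a1 := hp (γ (X'.d (φ a) (φ b)))
    rw [gn] at a1 ⊢
    have a2 := X'.symm (φ (p (φ b))) (φ b)
    omega
  · obtain ⟨n, n1, n2⟩ := hδ.nb hc
    have key : ∀ u, X'.Bt (0 + δ) (φ u) n (φ e) → ∃ c', X'.Bt (2 * r) (φ u) (φ c') (φ e) ∧
        X.d c c' ≤ C * (3 * r + 3 * δ + 1) + 2 := fun u hu => by
      obtain ⟨m, m1, m2⟩ := hδ.nb hu
      refine ⟨p m, by simpa using m1.move_mid (hp m), hd _ _ ?_⟩
      have a1 := hp m
      have a2 := X'.tri (φ c) n (φ (p m))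
      have a3 := X'.tri n m (φ (p m))
      omega
    rcases hδ.l1 n1 (φ e) with h | h
    · obtain ⟨c', c1, c2⟩ := key a h
      exact ⟨c', Or.inl c1, c2⟩
    · obtain ⟨c', c1, c2⟩ := key b h
      exact ⟨c', Or.inr c1, c2⟩
  · refine hd _ _ ?_
    have a1 := h1 a b
    have a2 : X'.d (φ a) (φ c) + X'.d (φ c) (φ b) ≤ X'.d (φ a) (φ b) + 2 * r := hc
    omega

attribute [local instance] ConeOff.act QS.act

theorem scz (c : ℕ) : ∃ g : ℕ, ∀ (Ed N S : Type) [Fintype N] [Fintype S] [DecidableEq S]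
    (Γ : LG Ed N S), Γ.Girth g → Γ.Pieces c → ∀ (A Λ : Type) [CommGroup A] [Group Λ] [Fintype Λ]
    (j : A →* Λ) (α : Ed → A), (∀ a l, Commute (j a) l) →
    ∃ (G : Type) (_ : Group G) (x : S → G) (γ : N → G) (ζ : Λ →* G), IsHyp G ∧
      Function.Injective ζ ∧ (∀ s l, Commute (x s) (ζ l)) ∧ (∀ y l, Commute (γ y) (ζ l)) ∧
      ∀ e, γ (Γ.en e false) = γ (Γ.en e true) * x (Γ.lab e) * ζ (j (α e)) := by
  classical
  obtain ⟨δ₀, K, h⟩ := cone
  obtain ⟨ε, hε⟩ : ∃ ε, ε = 2 * c + 6 := ⟨_, rfl⟩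
  obtain ⟨M, C, hM, h⟩ := h ε (by omega)
  refine ⟨100 * M + 100 * ε, fun Ed N S _ _ _ Γ hg hc A Λ _ _ _ j α hj => ?_⟩
  have F : Fam (tree S) Γ.Y ε := hε ▸ fam hc
  let aV : MulAction (FreeGroup S × Λ) (FreeGroup S) := MulAction.compHom _ (MonoidHom.fst _ _)
  let aU : MulAction (FreeGroup S × Λ) Γ.U := MulAction.compHom _ (MonoidHom.fst _ _)
  have sU : ∀ (g : FreeGroup S × Λ) (u : Γ.U), (g • u).1 = g.1 • u.1 := fun _ _ => rfl
  have sV : ∀ (g : FreeGroup S × Λ) (x : FreeGroup S), g • x = g.1 * x := fun _ _ => rfl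
  have iso : (tree S).Iso (FreeGroup S × Λ) := fun g x y => tree_iso S g.1 x y
  have eqv : Eqv (FreeGroup S × Λ) Γ.Y := fun g u y hy => Y_eqv g.1 u y hy
  obtain ⟨Z, z1, z2⟩ := h _ (tree S) (FreeGroup S × Λ) Γ.U Γ.Y F iso eqv
  let Gu : Γ.U → Subgroup (FreeGroup S × Λ) := fun u =>
    { carrier := {g | ∃ a, g.2 = j a ∧ ∀ f y, Quotient.mk Γ.sd (f, y) = u.1 →
        (cov Γ α).Rf (y, 1) (f⁻¹ * g.1 * f) (y, a)}
      one_mem' := ⟨1, j.map_one.symm, fun f y _ => by simpa using rf_one (Γ := cov Γ α) (y, 1)⟩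
      mul_mem' := by
        rintro g k ⟨a, a1, a2⟩ ⟨b, b1, b2⟩
        refine ⟨a * b, by rw [Prod.snd_mul, a1, b1, j.map_mul], fun f y hy => ?_⟩
        have := (a2 f y hy).mul (by simpa using rf_shift (b2 f y hy) a)
        simpa [mul_assoc] using this
      inv_mem' := by
        rintro g ⟨a, a1, a2⟩
        refine ⟨a⁻¹, by rw [Prod.snd_inv, a1, j.map_inv], fun f y hy => ?_⟩
        have := rf_shift (a2 f y hy).inv a⁻¹
        simpa [mul_assoc] using this }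
  have memG : ∀ (u : Γ.U) (g : FreeGroup S) (a : A) f y, Quotient.mk Γ.sd (f, y) = u.1 →
      (cov Γ α).Rf (y, 1) (f⁻¹ * g * f) (y, a) → (g, j a) ∈ Gu u := by
    intro u g a f y hy hr
    refine ⟨a, rfl, fun f' y' hy' => ?_⟩
    obtain ⟨k, hk⟩ := rd_lift (α := α) 1 (mk_eq.1 (hy.trans hy'.symm))
    have a1 : (cov Γ α).Rf (y, 1) (f⁻¹ * f') (y', k) := hk
    have a2 := rf_shift ((a1.inv.mul hr).mul (by simpa using rf_shift a1 a)) k⁻¹
    rw [inv_mul_cancel, mul_comm a, inv_mul_cancel_left] at a2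
    simpa [mul_assoc] using a2
  have Gfix : ∀ u r, r ∈ Gu u → r • u = u := by
    rintro u r ⟨a, -, hr⟩
    obtain ⟨⟨f, y⟩, hy⟩ := Quotient.exists_rep u.1
    refine Subtype.ext ?_
    rw [sU, ← hy, smul_mk, eq_comm, mk_eq]
    simpa [mul_assoc] using rf_down (hr f y hy)
  have Gne : ∀ u r, r ∈ Gu u → r ≠ 1 → r.1 ≠ 1 := by
    rintro u r ⟨a, ha, hr⟩ r1 hθ
    obtain ⟨⟨f, y⟩, hy⟩ := Quotient.exists_rep u.1
    have a1 := hr f y hy
    rw [hθ, mul_one, inv_mul_cancel] at a1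
    have a2 : a = 1 := (Prod.ext_iff.1 (Rd.func a1 (rf_one _))).2
    exact r1 (Prod.ext hθ (by rw [ha, a2, j.map_one]; rfl))
  let R : Rot Z.P (100 * M) :=
    { G := Gu
      conj := by
        rintro g u r ⟨a, ha, hr⟩
        refine ⟨a, ?_, fun f y hy => ?_⟩
        · change g.2 * r.2 * g.2⁻¹ = _
          rw [ha, ← (hj a g.2).eq, mul_inv_cancel_right]
        have a1 : Quotient.mk Γ.sd (g.1⁻¹ * f, y) = u.1 := by
          rw [← smul_mk, hy, sU, inv_smul_smul]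
        simpa [mul_assoc] using hr _ _ a1
      fix := Gfix
      rot := fun u r a hr r1 => Z.rot r u _ _ a (Gfix u r hr)
        (disp hg (r := r.1) (Gfix u r hr) (Gne u r hr r1)) le_rfl }
  let π : FreeGroup S × Λ →* (FreeGroup S × Λ) ⧸ R.N := QuotientGroup.mk' R.N
  have cl : ∀ {z : N} {g : FreeGroup S} {a : A}, (cov Γ α).Rf (z, 1) g (z, a) →
      π (g, j a) = 1 := by
    intro z g a hz
    by_cases g1 : g = 1
    · subst g1
      have a2 : a = 1 := (Prod.ext_iff.1 (Rd.func hz (rf_one _))).2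
      rw [a2, j.map_one]; exact π.map_one
    have hs : g • Quotient.mk Γ.sd (1, z) = Quotient.mk Γ.sd (1, z) := by
      rw [smul_mk, eq_comm, mk_eq]; simpa using rf_down hz
    exact (QuotientGroup.eq_one_iff _).2
      (R.le_N ⟨_, g, g1, hs⟩ (memG _ g a 1 z rfl (by simpa using hz)))
  have cl' : ∀ {y z : N} {f f' : FreeGroup S} {a a' : A}, (cov Γ α).Rf (y, 1) f (z, a) →
      (cov Γ α).Rf (y, 1) f' (z, a') → π (f, j a) = π (f', j a') := by
    intro y z f f' a a' h1 h2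
    have h3 := rf_shift (h1.inv.mul h2) a⁻¹
    rw [inv_mul_cancel] at h3
    have h4 := cl h3
    rw [j.map_mul, j.map_inv] at h4
    rw [← inv_mul_eq_one, ← π.map_inv, ← π.map_mul]
    exact h4
  have hp : ∀ y z : N, ∃ f a, (∃ f', Γ.Rf y f' z) → (cov Γ α).Rf (y, 1) f (z, a) := by
    intro y z
    by_cases hh : ∃ f', Γ.Rf y f' z
    · obtain ⟨f, hf⟩ := hh
      obtain ⟨a, ha⟩ := rd_lift (α := α) 1 hf
      exact ⟨f, a, fun _ => ha⟩
    · exact ⟨1, 1, fun h => absurd h hh⟩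
  choose pth wt hpth using hp
  let cn : Setoid N := ⟨fun y z => ∃ f, Γ.Rf y f z, ⟨fun y => ⟨1, rf_one y⟩,
    fun ⟨f, hf⟩ => ⟨_, hf.inv⟩, fun ⟨f, hf⟩ ⟨f', hf'⟩ => ⟨_, hf.mul hf'⟩⟩⟩
  let rep : N → N := fun y => (Quotient.mk cn y).out
  have hrep : ∀ y, (cov Γ α).Rf (rep y, 1) (pth (rep y) y) (y, wt (rep y) y) :=
    fun y => hpth _ _ (Quotient.mk_out (s := cn) y)
  let σ : FreeGroup (S ⊕ Λ) →* FreeGroup S × Λ :=
    FreeGroup.lift (Sum.elim (fun s => (of s, 1)) fun l => (1, l))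
  have σ1 : ∀ f, σ (FreeGroup.map Sum.inl f) = (f, 1) := fun f =>
    DFunLike.congr_fun (FreeGroup.ext_hom (σ.comp (FreeGroup.map Sum.inl)) (MonoidHom.inl _ _)
      fun s => by simp [σ]) f
  have σ2 : ∀ f l, σ (FreeGroup.map Sum.inl f * of (.inr l)) = (f, l) := fun f l => by
    rw [σ.map_mul, σ1]; simp [σ]
  have σ3 : Function.Surjective σ := fun k => ⟨_, σ2 k.1 k.2⟩
  have σ4 : ∀ w, norm (σ w).1 ≤ norm w := norm_hom ((MonoidHom.fst _ _).comp σ) (by
    rintro (s | l) <;> simp [σ])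
  have σ5 : ∀ f : FreeGroup S, norm (FreeGroup.map (Sum.inl : S → S ⊕ Λ) f) ≤ norm f :=
    norm_hom _ fun s => by simp
  obtain ⟨X, x1, x2, x3⟩ := word _ _ (π.comp σ) ((QuotientGroup.mk'_surjective _).comp σ3)
  have y0 : ∀ k w, X.d (π k) (π (k * σ w)) ≤ norm w := fun k w => by
    obtain ⟨v, rfl⟩ := σ3 k
    have := x1 v (v * w)
    rwa [inv_mul_cancel_left, MonoidHom.comp_apply, MonoidHom.comp_apply, σ.map_mul] at this
  have y1 : ∀ f f', X.d (π (f, 1)) (π (f', 1)) ≤ norm (f⁻¹ * f') := fun f f' => by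
    have := y0 (f, 1) (FreeGroup.map Sum.inl (f⁻¹ * f'))
    rw [σ1] at this
    simpa using this.trans (σ5 _)
  have y2 : ∀ f l l', X.d (π (f, l)) (π (f, l')) ≤ 1 := fun f l l' => by
    simpa [σ] using y0 (f, l) (of (.inr (l⁻¹ * l')))
  obtain ⟨Q⟩ := exists_QS R Z.iso
  have hyp := (Q.rips Z.iso le_rfl Z.hyp le_rfl Z.sep).hyp
  have cm : ∀ f a l, Commute (π (f, j a)) (π (1, l)) := fun f a l =>
    Commute.map (Prod.ext (by simp) (hj a l).eq) π
  refine ⟨_, inferInstance, fun s => π (of s, 1), fun y => π (pth (rep y) y, j (wt (rep y) y)),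
    π.comp (MonoidHom.inr _ _), x3 ?_, (injective_iff_map_eq_one _).2 fun l hl => ?_,
    fun s l => j.map_one ▸ cm _ 1 l, fun y l => cm _ _ l, fun e => ?_⟩
  · let C₀ := Finset.univ.sup fun p : N × N => norm (pth p.1 p.2)
    have hφ : ∀ k : FreeGroup S × Λ, π k • Q.pr (Z.ι 1) = Q.pr (Z.ι k.1) := by
      intro k
      have := Q.eqv k (Z.ι 1)
      rw [← Z.ι_smul, sV, mul_one] at this
      exact this.symm
    refine qi' X Q.X' (fun a => a • Q.pr (Z.ι 1)) _ (C + (C₀ + 1)) 2 hyp (fun a b => ?_)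
      (fun a b => ?_) (fun c => ?_)
    · obtain ⟨v, rfl⟩ := ((QuotientGroup.mk'_surjective R.N).comp σ3) a
      obtain ⟨v', rfl, e⟩ := x2 v b
      change Q.X'.d (π (σ v) • _) (π (σ v') • _) ≤ X.d (π.comp σ v) _
      rw [hφ, hφ, e]
      refine (Q.le _ _).trans (le_trans ?_ (σ4 _))
      rw [σ.map_mul, σ.map_inv, Prod.fst_mul, Prod.fst_inv]
      generalize (σ v).1 = f, (σ v').1 = f'
      have a1 := Z.shrink f f'
      change _ ≤ norm (f⁻¹ * f') + _ at a1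
      by_cases h0 : norm (f⁻¹ * f') = 0
      · have : f = f' := (tree S).eq_of _ _ h0
        rw [this, Z.Z.d_self]; omega
      · by_contra hlt
        have a2 : 100 * ε * (norm (f⁻¹ * f') + 1) ≤ 100 * ε * Z.Z.d (Z.ι f) (Z.ι f') :=
          Nat.mul_le_mul_left _ (by omega)
        have a3 : 2 * norm (f⁻¹ * f') ≤ 100 * ε * norm (f⁻¹ * f') :=
          Nat.mul_le_mul_right _ (by omega)
        rw [Nat.mul_succ] at a2
        omega
    · obtain ⟨⟨f, l⟩, rfl⟩ := QuotientGroup.mk'_surjective R.N a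
      obtain ⟨⟨f', l'⟩, rfl⟩ := QuotientGroup.mk'_surjective R.N b
      change X.d (π (f, l)) (π (f', l')) ≤ _ * Q.X'.d (π (f, l) • _) (π (f', l') • _) + 2
      rw [hφ, hφ]
      obtain ⟨n, hn, e⟩ := Q.ex (Z.ι f) (Z.ι f')
      have e2 : π (n.1 * f', n.2 * l') = π (f', l') := by
        change π (n * (f', l')) = _
        rw [π.map_mul, show π n = 1 from (QuotientGroup.eq_one_iff n).2 hn, one_mul]
      rw [e, ← Z.ι_smul, ← e2, sV]
      have a0 := z2 (fun x y => X.d (π (x, 1)) (π (y, 1))) (C₀ + 1) (fun x y z => X.tri _ _ _) y1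
        (by
          rintro u x ⟨z, a1⟩ y ⟨z', a2⟩
          have a3 := mk_eq.1 (a1.trans a2.symm)
          obtain ⟨a, ha⟩ := rd_lift (α := α) 1 a3
          have a4 := cl' (f := x⁻¹ * y) ha (hpth z z' ⟨_, a3⟩)
          have a5 : π (y, j a) = π (x * pth z z', j (wt z z')) := by
            have := congrArg (π (x, 1) * ·) a4
            simpa [← π.map_mul] using this
          have a6 := y0 (x, 1)
            (FreeGroup.map Sum.inl (pth z z') * of (.inr (j (wt z z') * (j a)⁻¹)))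
          have a7 : π ((x, 1) * (pth z z', j (wt z z') * (j a)⁻¹)) = π (y, 1) := by
            have := congrArg (· * π (1, (j a)⁻¹)) a5
            simpa [← π.map_mul] using this.symm
          rw [σ2, a7] at a6
          have a8 := σ5 (pth z z')
          have a9 : norm (pth z z') ≤ C₀ := Finset.le_sup (f := fun p : N × N => norm (pth p.1 p.2))
            (Finset.mem_univ (z, z'))
          refine a6.trans ((FreeGroup.norm_mul_le _ _).trans ?_)
          rw [norm_of]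
          omega) f (n.1 * f')
      have a1 := X.tri (π (f, l)) (π (f, 1)) (π (n.1 * f', n.2 * l'))
      have a2 := X.tri (π (f, 1)) (π (n.1 * f', 1)) (π (n.1 * f', n.2 * l'))
      have a3 := y2 f l 1
      have a4 := y2 (n.1 * f') 1 (n.2 * l')
      omega
    · obtain ⟨c, rfl⟩ := Q.surj c
      obtain ⟨x, hx⟩ := z1 c
      exact ⟨π (x, 1), by rw [hφ]; exact (Q.le _ _).trans hx⟩
  · by_contra l1
    obtain ⟨k, hk⟩ := R.mem_N_iff.1 ((QuotientGroup.eq_one_iff _).1 hl)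
    have z1 : ((1, l) : FreeGroup S × Λ) ≠ 1 := fun h => l1 (Prod.ext_iff.1 h).2
    cases k with
    | zero => exact z1 hk.zero
    | succ k =>
      obtain ⟨u, r, hr, r1, -, ha⟩ := R.green Z.iso (by omega) (x := Z.ι 1) (Z.ι_ne 1) hk z1
      have e : ((1, l) : FreeGroup S × Λ) • Z.ι 1 = Z.ι 1 := by
        rw [← Z.ι_smul, sV, one_mul]
      change Z.P.Ang u _ ((r⁻¹ * (1, l)) • _) _ at ha
      rw [mul_smul, e] at ha
      exact R.rot u r⁻¹ _ (inv_mem hr) (inv_ne_one.2 r1) (Z.P.mono ha (by omega))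
  · have e1 : rep (Γ.en e false) = rep (Γ.en e true) := by
      simp only [rep]
      congr 1
      exact (Quotient.sound (s := cn) ⟨_, rf_edge e⟩).symm
    have a3 := (hrep (Γ.en e true)).mul (rf_edge (Γ := cov Γ α) (e, wt _ (Γ.en e true)))
    have a4 := cl' (hrep (Γ.en e false)) (e1 ▸ a3)
    refine a4.trans ?_
    rw [MonoidHom.comp_apply, ← π.map_mul, ← π.map_mul]
    simp [cov, e1]

end Pool.Agent.P.MP_e79ed6_al.Df
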