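import Pool.Agent.P.MP_e79ed6_al.DfA
import Pool.Agent.P.MP_d7b7be_al.Base

/-! Designs in every characteristic, and group algebras which are not directly finite. -/

set_option autoImplicit false

namespace Pool.Agent.P.MP_e79ed6_al.Df

open Pool.Agent.P.MP_4b59b0_al Finset

/-! ### Designs over a finite field -/

theorem dir' (F T Dir I : Type) [Field F] [Fintype F] [Fintype T] [Fintype Dir] [Fintype I] (q : ℕ)
    (h1 : Fintype.card T ≤ Fintype.card F * (Fintype.card F * q))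
    (h2 : Fintype.card F * Fintype.card F ≤ Fintype.card Dir)
    (h3 : q * Fintype.card I ≤ Fintype.card F) :
    ∃ δ : T → I → Dir, (∀ t, Function.Injective (δ t)) ∧
      ∀ t t' i j i' j', t ≠ t' → δ t i = δ t' j → δ t i' = δ t' j' → i = i' := by
  obtain ⟨enc⟩ := Function.Embedding.nonempty_of_card_le (α := F × F) (β := Dir) (by simpa)
  obtain ⟨ch⟩ := Function.Embedding.nonempty_of_card_le (α := Fin q × I) (β := F) (by simpa)
  obtain ⟨idx⟩ := Function.Embedding.nonempty_of_card_le (α := T) (β := F × F × Fin q) (by simpa)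
  refine ⟨fun t i => enc (ch ((idx t).2.2, i), (idx t).1 * ch ((idx t).2.2, i) + (idx t).2.1),
    fun t i j h => (Prod.ext_iff.1 (ch.injective (Prod.ext_iff.1 (enc.injective h)).1)).2,
    fun t t' i j i' j' ht e e' => ?_⟩
  obtain ⟨a1, a2⟩ := Prod.ext_iff.1 (enc.injective e)
  obtain ⟨b1, b2⟩ := Prod.ext_iff.1 (enc.injective e')
  dsimp only at a1 a2 b1 b2
  rw [← a1] at a2
  rw [← b1] at b2
  by_contra hi
  have hz : ch ((idx t).2.2, i) - ch ((idx t).2.2, i') ≠ 0 :=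
    sub_ne_zero.2 fun h => hi (Prod.ext_iff.1 (ch.injective h)).2
  have c1 : (idx t).1 = (idx t').1 := mul_right_cancel₀ hz (by linear_combination a2 - b2)
  rw [c1, add_right_inj] at a2
  exact ht (idx.injective (Prod.ext c1 (Prod.ext a2 (Prod.ext_iff.1 (ch.injective a1)).1)))

theorem phi' (L : Type) [Field L] [Fintype L] (n a : ℕ) (h : (n + 1) * a + 2 ≤ Fintype.card L) :
    ∃ Φ : Submodule L (L × (Fin n → L) → L), Module.finrank L Φ = (a + 1) ^ (n + 1) ∧
      ∀ φ ∈ Φ, ∀ u v : Fin n → L, ∑ x : L, φ (x, v + x • u) = 0 := by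
  have ha : a ≤ Fintype.card L - 1 := by
    have : a ≤ (n + 1) * a := Nat.le_mul_of_pos_left a (Nat.succ_pos n)
    omega
  have li := (phi_li L (Fin (n + 1)) ha).map' (LinearEquiv.funCongrLeft L L
    (Fin.consEquiv fun _ : Fin (n + 1) => L)).toLinearMap (LinearEquiv.ker _)
  refine ⟨_, (finrank_span_eq_card li).trans (by simp), fun φ hφ u v => ?_⟩
  induction hφ using Submodule.span_induction with
  | mem φ hφ =>
    obtain ⟨e, rfl⟩ := hφ
    have := phi_sum (∏ i, (Polynomial.C ((Fin.cons 1 u : Fin (n + 1) → L) i) * Polynomial.X +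
        Polynomial.C ((Fin.cons 0 v : Fin (n + 1) → L) i)) ^ (e i : ℕ)) (by
      refine (Polynomial.natDegree_prod_le _ _).trans_lt ((sum_le_card_nsmul _ _ a fun i _ =>
        Polynomial.natDegree_pow_le.trans ?_).trans_lt ?_)
      · exact (Nat.mul_le_mul (Nat.lt_succ_iff.1 (e i).2) Polynomial.natDegree_linear_le).trans
          (mul_one a).le
      · rw [card_univ, Fintype.card_fin, smul_eq_mul]
        omega)
    rw [← this]
    refine sum_congr rfl fun x _ => ?_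
    rw [Polynomial.eval_prod]
    show ∏ i, (Fin.cons x (v + x • u) : Fin (n + 1) → L) i ^ (e i : ℕ) = _
    refine prod_congr rfl fun i _ => ?_
    refine Fin.cases ?_ (fun j => ?_) i
    · simp
    · simp only [Fin.cons_succ, Polynomial.eval_pow, Polynomial.eval_add, Polynomial.eval_mul,
        Polynomial.eval_C, Polynomial.eval_X, Pi.add_apply, Pi.smul_apply, smul_eq_mul]
      ring
  | zero => simp
  | add f g _ _ hf hg => simp only [Pi.add_apply, sum_add_distrib, hf, hg, add_zero]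
  | smul c f _ hf => simp only [Pi.smul_apply, smul_eq_mul, ← mul_sum, hf, mul_zero]

theorem descend (K : Type) {L T B I V : Type} [Field K] [Field L] [Algebra K L]
    [FiniteDimensional K L] [Fintype T] [Fintype B] [DecidableEq B] [DecidableEq V] {D : ℕ}
    (d : Des L T B I V D) : Nonempty (Des K T B I V D) := by
  let Φ : Submodule K (T → K) :=
    { carrier := {φ | ∀ t i v, ∑ s ∈ univ.filter (fun s => d.ν t s i = v), φ s = 0}
      zero_mem' := fun t i v => by simp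
      add_mem' := fun {a b} ha hb t i v => by
        simp only [Pi.add_apply, sum_add_distrib, ha t i v, hb t i v, add_zero]
      smul_mem' := fun c a ha t i v => by
        simp only [Pi.smul_apply, smul_eq_mul, ← mul_sum, ha t i v, mul_zero] }
  let b := Module.finBasis K L
  let Ψ : d.Φ →ₗ[K] Fin (Module.finrank K L) → Φ :=
    { toFun := fun φ k => ⟨fun s => b.coord k (φ.1 s), fun t i v => by
        rw [← map_sum, d.sum _ φ.2, map_zero]⟩
      map_add' := fun _ _ => by ext; simp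
      map_smul' := fun _ _ => by ext; simp }
  have h1 := LinearMap.finrank_le_finrank_of_injective (f := Ψ) fun φ φ' h =>
    Subtype.ext (funext fun s => b.ext_elem fun k =>
      congrFun (congrArg Subtype.val (congrFun h k)) s)
  rw [← Module.finrank_mul_finrank K L, Module.finrank_pi_fintype] at h1
  simp only [sum_const, card_univ, Fintype.card_fin, smul_eq_mul] at h1
  exact ⟨⟨d.cl, d.ν, Φ, d.p1, d.p2, d.dl, d.dr, fun _ h => h,
    d.dim.trans_le (Nat.le_of_mul_le_mul_left h1 Module.finrank_pos)⟩⟩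

theorem desp (p g : ℕ) [Fact p.Prime] : ∃ (T B I V : Type) (_ : Fintype T) (_ : Fintype B)
    (_ : Fintype I) (_ : Fintype V) (_ : DecidableEq B) (_ : DecidableEq V) (D : ℕ)
    (_ : Des (ZMod p) T B I V D), 4 * (D + 1) ^ g + 2 * D < Fintype.card I := by
  classical
  set r := 2 * g + 3 with hr
  obtain ⟨e, he⟩ : ∃ e, e = (2 * (2 * r + 1 + 1 + 1)) ^ (2 * r + 1 + 1 + 1) + 3 := ⟨_, rfl⟩
  have e0 : e ≠ 0 := by omega
  let L := GaloisField p e
  let F := GaloisField p (e * (r + 1))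
  let _ : Fintype L := Fintype.ofFinite _
  let _ : Fintype F := Fintype.ofFinite _
  obtain ⟨q, hq⟩ : ∃ q, q = p ^ e := ⟨_, rfl⟩
  have cL : Fintype.card L = q := by
    rw [← Nat.card_eq_fintype_card, GaloisField.card p e e0, hq]
  have cF : Fintype.card F = q ^ (r + 1) := by
    rw [← Nat.card_eq_fintype_card, GaloisField.card p _ (by positivity), hq, pow_mul]
  have hp : (2 * (2 * r + 1 + 1 + 1)) ^ (2 * r + 1 + 1 + 1) + 3 ≤ q :=
    he ▸ hq ▸ (Nat.lt_pow_self (Fact.out : p.Prime).one_lt).le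
  have h3 : 3 ≤ q := le_trans (Nat.le_add_left _ _) hp
  obtain ⟨δ, d1, d2⟩ := dir' F (L × (Fin (2 * r + 1 + 1) → L)) (Fin (2 * r + 1 + 1) → L)
    (Fin (q ^ r)) q (by simp only [Fintype.card_prod, Fintype.card_fun, cL, cF, Fintype.card_fin]
                        exact le_of_eq (by ring))
    (by simp only [Fintype.card_fun, cL, cF, Fintype.card_fin]; exact le_of_eq (by ring))
    (by simp only [cF, Fintype.card_fin]; exact le_of_eq (by ring))
  obtain ⟨Φ, f1, f2⟩ := phi' L (2 * r + 1 + 1) ((q - 2) / (2 * r + 1 + 1 + 1))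
    (by have := Nat.mul_div_le (q - 2) (2 * r + 1 + 1 + 1); omega)
  refine ⟨L × (Fin (2 * r + 1 + 1) → L), L × (Fin (2 * r + 1) → L),
    Fin (q ^ r), Fin (2 * r + 1 + 1) → L, inferInstance, inferInstance,
    inferInstance, inferInstance, inferInstance, inferInstance, q, (descend (ZMod p) (L := L)
    { cl := fun s => (s.1, Fin.tail s.2)
      ν := fun t s i => s.2 - s.1 • δ t i
      Φ := Φ
      p1 := fun t s s' i j h a b => d1 t (des_dir h a b)
      p2 := fun t t' s₁ s₂ s₃ s₄ i j i' j' ht h h' a b a' b' =>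
        d2 t t' i j i' j' ht (des_dir h a b) (des_dir h' a' b')
      dl := fun t i v => ?_
      dr := fun b => ?_
      sum := fun φ hφ t i v => ?_
      dim := ?_ }).some, ?_⟩
  · rw [des_line]
    exact card_image_le.trans (by simp [cL])
  · refine (card_le_card_of_injOn (t := univ) (fun s => s.2 0) (by simp) ?_).trans (by simp [cL])
    intro s hs s' hs' e
    have e1 := Prod.ext_iff.1 ((mem_filter.1 hs).2.trans (mem_filter.1 hs').2.symm)
    refine Prod.ext e1.1 ?_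
    rw [← Fin.cons_self_tail s.2, ← Fin.cons_self_tail s'.2]
    exact congrArg₂ Fin.cons e e1.2
  · rw [des_line, sum_image fun x _ y _ e => (Prod.ext_iff.1 e).1]
    exact f2 φ hφ _ _
  · rw [f1]
    refine lt_of_eq_of_lt ?_ (des_dim hp)
    simp [pow_succ', cL]
  · rw [Fintype.card_fin]
    exact des_count g h3

/-! ### The graph of a design without a new label -/

section graph

variable {K T B I V : Type} [Field K] [Fintype T] [Fintype B] [DecidableEq B]
  [DecidableEq V] {D : ℕ} (d : Des K T B I V D) (β : T × T → Equiv.Perm I)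

/-- In the component `t` the edge `(s, i)` has label `s`. -/
def lg0 : LG ((T × T) × I) ((T × I × V) ⊕ (T × B) × I) T where
  en := ben d.cl' d.lam β
  lab e := e.1.2
  fold := by
    rintro ⟨⟨t, s⟩, i⟩ ⟨⟨t', s'⟩, i'⟩ b h1 rfl
    cases b
    · simp only [ben, Des.cl', Sum.inr.injEq, Prod.mk.injEq] at h1
      obtain ⟨⟨rfl, -⟩, h3⟩ := h1
      rw [(β _).injective h3]
    · simp only [ben, Des.lam, Sum.inl.injEq, Prod.mk.injEq] at h1
      obtain ⟨rfl, rfl, -⟩ := h1
      rfl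

variable {d β}

theorem pc_step {y y' m m' : (T × I × V) ⊕ (T × B) × I} {c : T × Bool} (hne : y ≠ y')
    (h : (lg0 d β).St y c m) (h' : (lg0 d β).St y' c m') :
    m ≠ m' ∧ ∃ t i t' j, ben d.cl' d.lam β ((t, c.1), i) c.2 = y ∧
      ben d.cl' d.lam β ((t, c.1), i) (!c.2) = m ∧ ben d.cl' d.lam β ((t', c.1), j) c.2 = y' ∧
      ben d.cl' d.lam β ((t', c.1), j) (!c.2) = m' := by
  obtain ⟨e, a1, a2, a3⟩ := h
  obtain ⟨e', b1, b2, b3⟩ := h'
  have he : e ≠ e' := fun h => hne (by rw [← a2, ← b2, h])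
  refine ⟨fun h => he ((lg0 d β).fold e e' _ (a3.trans (h.trans b3.symm))
    (a1.trans b1.symm)), ?_⟩
  obtain ⟨s₀, b⟩ := c
  obtain ⟨⟨t, s⟩, i⟩ := e
  obtain ⟨⟨t', s'⟩, j⟩ := e'
  cases a1
  cases b1
  exact ⟨t, i, t', j, a2, a3, b2, b3⟩

theorem pc_sign {y m z : (T × I × V) ⊕ (T × B) × I} {c c' : T × Bool}
    (h : (lg0 d β).St y c m) (h' : (lg0 d β).St m c' z) : c'.2 = !c.2 := by
  obtain ⟨e, -, -, a3⟩ := h
  obtain ⟨e', -, b2, -⟩ := h'
  have := a3.trans b2.symm
  cases h1 : c.2 <;> cases h2 : c'.2 <;> simp [h1, h2, lg0, ben] at this ⊢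

theorem pc_four (hL : Latin d.cl' β) {c₁ c₂ c₃ c₄ : T × Bool} {w : List (T × Bool)}
    {y y' z z' : (T × I × V) ⊕ (T × B) × I} (hc : c₁.2 = false)
    (hr : FreeGroup.IsReduced (c₁ :: c₂ :: c₃ :: c₄ :: w)) (hne : y ≠ y')
    (h : (lg0 d β).Rd (c₁ :: c₂ :: c₃ :: c₄ :: w) y z)
    (h' : (lg0 d β).Rd (c₁ :: c₂ :: c₃ :: c₄ :: w) y' z') : False := by
  obtain ⟨y₁, a1, y₂, a2, y₃, a3, y₄, a4, -⟩ := h
  obtain ⟨z₁, b1, z₂, b2, z₃, b3, z₄, b4, -⟩ := h'
  have s2 := pc_sign a1 a2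
  have s3 := pc_sign a2 a3
  have s4 := pc_sign a3 a4
  rw [hc] at s2
  rw [s2] at s3
  rw [s3] at s4
  obtain ⟨n1, t₁, i₁, u₁, j₁, -, p1, -, q1⟩ := pc_step hne a1 b1
  obtain ⟨n2, t₂, i₂, u₂, j₂, p2, p2', q2, q2'⟩ := pc_step n1 a2 b2
  obtain ⟨n3, t₃, i₃, u₃, j₃, p3, p3', q3, q3'⟩ := pc_step n2 a3 b3
  obtain ⟨-, t₄, i₄, u₄, j₄, p4, -, q4, -⟩ := pc_step n3 a4 b4
  simp only [FreeGroup.isReduced_cons_cons, hc, s2, s3, s4,
    Bool.not_false, Bool.not_true, Bool.false_eq_true, Bool.true_eq_false, imp_false] at hr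
  obtain ⟨r1, r2, r3, -⟩ := hr
  rw [← p1, ← q1] at n1
  have k1 := p1.trans p2.symm
  have k2 := p2'.trans p3.symm
  have k3 := p3'.trans p4.symm
  have l1 := q1.trans q2.symm
  have l2 := q2'.trans q3.symm
  have l3 := q3'.trans q4.symm
  simp only [hc, s2, s3, s4, Bool.not_false, Bool.not_true, ben, Des.lam, Des.cl', Sum.inl.injEq,
    Sum.inr.injEq, Prod.mk.injEq, ne_eq] at n1 k1 k2 k3 l1 l2 l3
  obtain ⟨rfl, rfl, k1⟩ := k1
  obtain ⟨⟨rfl, k4⟩, k2⟩ := k2
  obtain ⟨rfl, rfl, k3⟩ := k3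
  obtain ⟨rfl, rfl, l1⟩ := l1
  obtain ⟨⟨rfl, -⟩, -⟩ := l2
  obtain ⟨rfl, rfl, l3⟩ := l3
  by_cases ht : t₁ = u₁
  · subst ht
    obtain rfl := d.p1 _ _ _ _ _ r1 k1 l1
    exact n1 ⟨rfl, rfl, rfl⟩
  · obtain rfl := d.p2 _ _ _ _ _ _ _ _ _ _ ht r1 r3 k1 l1 k3 l3
    exact r2 (Prod.ext_iff.1 (hL (t₁, c₂.1) (t₁, c₃.1) i₁ (by simp [Des.cl', k4]) k2)).2

theorem pc (hL : Latin d.cl' β) : (lg0 d β).Pieces 4 := by
  intro w y y' z z' hr hne h h'
  by_contra hc
  match w, hc, hr, h, h' with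
  | [], hc, _, _, _ | [_], hc, _, _, _ | [_, _], hc, _, _, _ | [_, _, _], hc, _, _, _
  | [_, _, _, _], hc, _, _, _ => simp at hc
  | c₀ :: c₁ :: c₂ :: c₃ :: c₄ :: w, _, hr, h, h' =>
    cases h0 : c₀.2
    · exact pc_four hL h0 hr hne h h'
    · obtain ⟨m, a1, a2⟩ := h
      obtain ⟨m', b1, b2⟩ := h'
      have := a2
      obtain ⟨_, a3, -⟩ := this
      exact pc_four hL (by rw [pc_sign a1 a3, h0]; rfl)
        (FreeGroup.isReduced_cons_cons.1 hr).2 (pc_step hne a1 b1).1 a2 b2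

variable (d) in
theorem exists_beta [Fintype I] {g : ℕ} (hD : 4 * (D + 1) ^ g + 2 * D < Fintype.card I) :
    ∃ β, (lg0 d β).Girth g ∧ (lg0 d β).Pieces 4 := by
  obtain ⟨β, b1, b2⟩ := switch ball add (T × T) (T × B) (T × I × V) I d.cl' d.lam D g
    (fun s i j h => by simpa [Des.lam] using (Prod.ext_iff.1 (Prod.ext_iff.1 h).2).1)
    (by
      rintro ⟨t, i, v⟩
      refine le_trans ?_ (d.dl t i v)
      rw [← Set.ncard_coe_finset]
      refine Set.ncard_le_ncard_of_injOn (fun e => e.1.2) ?_ ?_ (Set.toFinite _)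
      · rintro ⟨⟨t', s⟩, i'⟩ h
        simp only [Des.lam, Set.mem_ofPred_eq, Prod.mk.injEq] at h
        obtain ⟨rfl, rfl, h⟩ := h
        simpa using h
      · rintro ⟨⟨t', s⟩, i'⟩ h ⟨⟨t'', s'⟩, i''⟩ h' e
        simp only [Des.lam, Set.mem_ofPred_eq, Prod.mk.injEq] at h h' e
        obtain ⟨rfl, rfl, -⟩ := h
        obtain ⟨rfl, rfl, -⟩ := h'
        rw [e])
    (by
      rintro ⟨t, b⟩
      refine le_trans ?_ (d.dr b)
      rw [← Set.ncard_coe_finset]
      refine Set.ncard_le_ncard_of_injOn (fun e => e.2) ?_ ?_ (Set.toFinite _)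
      · rintro ⟨t', s⟩ h
        simp only [Des.cl', Set.mem_ofPred_eq, Prod.mk.injEq] at h
        simpa using h.2
      · rintro ⟨t', s⟩ h ⟨t'', s'⟩ h' e
        simp only [Des.cl', Set.mem_ofPred_eq, Prod.mk.injEq] at h h' e
        rw [h.1, h'.1, e])
    hD
  exact ⟨β, girth _ _ _ (lg0 d β) g b2, pc b1⟩

end graph

end Pool.Agent.P.MP_e79ed6_al.Df
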