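import Pool.Agent.P.MP_e79ed6_al.DfB

/-! A hyperbolic group whose group algebra is not directly finite. -/

set_option autoImplicit false

namespace Pool.Agent.P.MP_e79ed6_al.Df

open Pool.Agent.P.MP_4b59b0_al Finset

/-! ### From matrices to elements -/

theorem corner {S B n : Type} [Ring S] [Fintype B] [Fintype n] [DecidableEq n] (ι : B → n)
    (hι : Function.Injective ι) (j₀ : n) (hj : ∀ b, j₀ ≠ ι b) (ε : S) (h0 : ε ≠ 0)
    (P Q : n → S) (hQ : ∀ i j, Q i * P j = if i = j then ε else 0)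
    (hP : ∀ j, P j * ε = P j) (hQ' : ∀ j, ε * Q j = Q j) (X : n → B → S) (Y : B → n → S)
    (h : ∀ j k, ε * (∑ b, X j b * ε * Y b k) * ε = if j = k then ε else 0) :
    ∃ a b : S, a * b = 1 ∧ b * a ≠ 1 := by
  classical
  obtain ⟨E, hE⟩ : ∃ E, E = ∑ j, P j * Q j := ⟨_, rfl⟩
  have e1 : ∀ i, Q i * E = Q i := fun i => by
    simp [hE, mul_sum, ← mul_assoc, hQ, hQ']
  have e2 : ∀ i, E * P i = P i := fun i => by
    simp [hE, sum_mul, mul_assoc, hQ, hP]
  have e3 : E * E = E := by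
    calc E * E = ∑ j, P j * (Q j * E) := by rw [hE, sum_mul]; simp only [mul_assoc]
      _ = E := by simp only [e1, ← hE]
  let U : B → S := fun b => ∑ j, P j * X j b
  let W : B → S := fun b => ∑ k, Y b k * Q k
  have u1 : ∀ b, E * U b = U b := fun b => by simp only [U, mul_sum, ← mul_assoc, e2]
  have w1 : ∀ b, W b * E = W b := fun b => by simp only [W, sum_mul, mul_assoc, e1]
  have a1 : (∑ b, U b * Q (ι b)) * ∑ b, P (ι b) * W b = E := by
    have : ∀ b, U b * Q (ι b) * ∑ b, P (ι b) * W b = U b * ε * W b := fun b => by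
      simp [mul_assoc (U b), mul_sum, ← mul_assoc (Q _), hQ, hι.eq_iff]
    simp only [sum_mul, this]
    have : ∀ j k, ∑ b, P j * X j b * ε * (Y b k * Q k) = if j = k then P j * Q j else 0 := by
      intro j k
      have := congrArg (P j * · * Q k) (h j k)
      simp only [← mul_assoc, hP, mul_assoc _ ε (Q k), hQ'] at this
      simp only [mul_sum, sum_mul, mul_assoc] at this ⊢
      rw [this]
      split_ifs with e
      · rw [hQ', e]
      · simp
    simp only [U, W, sum_mul, mul_sum]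
    rw [sum_comm, hE]
    refine sum_congr rfl fun k _ => ?_
    rw [sum_comm]
    simp [this]
  have a2 : (∑ b, U b * Q (ι b)) * (1 - E) = (0 : S) := by
    simp only [mul_sub, sum_mul, mul_assoc, e1, mul_one, sub_self]
  have a3 : (1 - E) * ∑ b, P (ι b) * W b = 0 := by
    simp [sub_mul, mul_sum, ← mul_assoc, e2]
  refine ⟨∑ b, U b * Q (ι b) + (1 - E), ∑ b, P (ι b) * W b + (1 - E), ?_, fun hba => h0 ?_⟩
  · rw [add_mul, mul_add, mul_add, a1, a2, a3, mul_sub, sub_mul, sub_mul, e3]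
    simp
  · have : Q j₀ * (∑ b, P (ι b) * W b + (1 - E)) = 0 := by
      simp [mul_add, mul_sub, mul_sum, ← mul_assoc, hQ, e1, hj]
    have h2 : Q j₀ = 0 := by rw [← mul_one (Q j₀), ← hba, ← mul_assoc, this, zero_mul]
    simpa [h2] using (hQ j₀ j₀).symm

/-! ### The Heisenberg group -/

/-- The Heisenberg group modulo `l`. -/
def Hs (l : ℕ) : Type := ZMod l × ZMod l × ZMod l

instance (l : ℕ) : Group (Hs l) where
  mul x y := (x.1 + y.1, x.2.1 + y.2.1, x.2.2 + y.2.2 + x.1 * y.2.1)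
  one := (0, 0, 0)
  inv x := (-x.1, -x.2.1, -x.2.2 + x.1 * x.2.1)
  mul_assoc x y z := Prod.ext (add_assoc _ _ _) (Prod.ext (add_assoc _ _ _) (by
    change x.2.2 + y.2.2 + x.1 * y.2.1 + z.2.2 + (x.1 + y.1) * z.2.1 =
      x.2.2 + (y.2.2 + z.2.2 + y.1 * z.2.1) + x.1 * (y.2.1 + z.2.1)
    ring))
  one_mul x := Prod.ext (zero_add _) (Prod.ext (zero_add _) (by
    change 0 + x.2.2 + 0 * x.2.1 = x.2.2
    ring))
  mul_one x := Prod.ext (add_zero _) (Prod.ext (add_zero _) (by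
    change x.2.2 + 0 + x.1 * 0 = x.2.2
    ring))
  inv_mul_cancel x := Prod.ext (neg_add_cancel _) (Prod.ext (neg_add_cancel _) (by
    change -x.2.2 + x.1 * x.2.1 + x.2.2 + -x.1 * x.2.1 = 0
    ring))

instance (l : ℕ) [NeZero l] : Fintype (Hs l) := inferInstanceAs (Fintype (ZMod l × ZMod l × ZMod l))

/-- An element of the Heisenberg group. -/
def hs {l : ℕ} (a b c : ZMod l) : Hs l := (a, b, c)

theorem hs_mul {l : ℕ} (a b c a' b' c' : ZMod l) :
    hs a b c * hs a' b' c' = hs (a + a') (b + b') (c + c' + a * b') := rfl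

theorem hs_one {l : ℕ} {a b c : ZMod l} : hs a b c = 1 ↔ a = 0 ∧ b = 0 ∧ c = 0 := by
  change (a, b, c) = (0, 0, 0) ↔ _
  simp

/-- The centre. -/
def jz (l : ℕ) : Multiplicative (ZMod l) →* Hs l where
  toFun c := hs 0 0 c.toAdd
  map_one' := rfl
  map_mul' a b := by simp [hs_mul]

theorem jz_comm {l : ℕ} (a : Multiplicative (ZMod l)) (x : Hs l) : Commute (jz l a) x := by
  change hs 0 0 a.toAdd * hs x.1 x.2.1 x.2.2 = hs x.1 x.2.1 x.2.2 * hs 0 0 a.toAdd
  simp [hs_mul, add_comm]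

section idem

variable {K S : Type} [Field K] [Ring S] [Algebra K S] {l : ℕ} [Fact l.Prime] (o : Hs l →* S)

variable (K) in
/-- The mean over the subgroup generated by `hs 0 b c`. -/
noncomputable def av (b c : ZMod l) : S := (l : K)⁻¹ • ∑ m, o (hs 0 (m * b) (m * c))

theorem av_abs (hl : (l : K) ≠ 0) {b c : ZMod l} {u : S}
    (h : ∀ m, o (hs 0 (m * b) (m * c)) * u = u) : av K o b c * u = u := by
  simp [av, sum_mul, h, ← Nat.cast_smul_eq_nsmul K, smul_smul, hl]

theorem mul_av (b c k : ZMod l) : o (hs 0 (k * b) (k * c)) * av K o b c = av K o b c := by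
  rw [av, mul_smul_comm, mul_sum, ← Equiv.sum_comp (Equiv.addLeft k) fun m => o (hs 0 (m * b) _)]
  simp [← o.map_mul, hs_mul, add_mul]

theorem av_comm {u : S} (h : ∀ b c, Commute u (o (hs 0 b c))) (b c : ZMod l) :
    Commute u (av K o b c) := (Commute.sum_right _ _ _ fun _ _ => h _ _).smul_right _

theorem hs_av (b c b' c' : ZMod l) : Commute (o (hs 0 b c)) (av K o b' c') :=
  av_comm o (fun _ _ => Commute.map (by simp [Commute, SemiconjBy, hs_mul, add_comm]) o) _ _

theorem exists_w (hl : (l : K) ≠ 0) : ∃ w, w * (o (hs 0 0 1) - 1) = 1 - av K o 0 1 := by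
  have : ∀ n : ℕ, o (hs 0 0 n) = o (hs 0 0 1) ^ n := fun n => by
    induction n with
    | zero => rw [Nat.cast_zero, pow_zero]; exact o.map_one
    | succ n ih => rw [pow_succ, ← ih, ← o.map_mul]; simp [hs_mul]
  refine ⟨-((l : K)⁻¹ • ∑ m : ZMod l, ∑ i ∈ range m.val, o (hs 0 0 1) ^ i), ?_⟩
  rw [neg_mul, smul_mul_assoc, sum_mul]
  simp only [geom_sum_mul]
  simp only [← this]
  simp [av, smul_sub, ← Nat.cast_smul_eq_nsmul K, smul_smul, hl]

theorem exists_eps (hl : (l : K) ≠ 0) (τ : S →ₗ[K] K) (τ1 : τ 1 = 1)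
    (τ0 : ∀ x, x ≠ 1 → τ (o x) = 0) : ∃ ε w : S, ε ≠ 0 ∧ ε * ε = ε ∧
      w * (o (hs 0 0 1) - 1) * ε = ε ∧ (∀ u, (∀ x, Commute u (o x)) → Commute u ε) ∧
      ∀ a, a ≠ 0 → ε * o (hs a 0 0) * ε = 0 := by
  obtain ⟨w, hw⟩ := exists_w o hl
  obtain ⟨Z, hZ⟩ : ∃ Z, Z = av K o 0 1 := ⟨_, rfl⟩
  have cz : ∀ x, Commute (o x) Z := fun x => hZ ▸ (Commute.sum_right _ _ _ fun m _ => by
    rw [mul_zero, mul_one]; exact (jz_comm (.ofAdd m) x).symm.map o).smul_right _
  have cz' : ∀ c, Commute Z (av K o 1 c) := fun c => av_comm o (fun _ _ => (cz _).symm) _ _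
  have ee : ∀ b c, av K o b c * av K o b c = av K o b c := fun b c => av_abs o hl (mul_av o b c)
  have ff : (1 - Z) * (1 - Z) = 1 - Z := by rw [mul_sub, sub_mul, sub_mul, hZ, ee]; simp
  have cf : ∀ c, Commute (1 - Z) (av K o 1 c) := fun c => (Commute.one_left _).sub_left (cz' c)
  refine ⟨(1 - Z) * av K o 1 0, w, fun h => ?_, ?_, by rw [hw, ← hZ, ← mul_assoc, ff],
    fun u hu => ((Commute.one_right u).sub_right (hZ ▸ av_comm o (fun _ _ => hu _) _ _)).mul_right
      (av_comm o (fun _ _ => hu _) _ _), fun a ha => ?_⟩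
  · rw [sub_mul, one_mul, sub_eq_zero] at h
    have h1 : o (hs 0 0 1) * av K o 1 0 = av K o 1 0 := by
      have := mul_av (K := K) o 0 1 1
      rw [mul_zero, mul_one, ← hZ] at this
      rw [h, ← mul_assoc, this]
    have h2 := congrArg τ h1
    rw [av, mul_smul_comm, mul_sum, map_smul, map_smul, map_sum, map_sum,
      sum_eq_zero fun m _ => by rw [← o.map_mul]; exact τ0 _ (by simp [hs_mul, hs_one]),
      sum_eq_single 0 (fun m _ hm => τ0 _ (by simp [hs_one, hm])) (by simp)] at h2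
    exact hl (by simpa [hs_one.2, τ1] using h2.symm)
  · rw [mul_assoc, ← mul_assoc (av K o 1 0), ← (cf 0).eq, mul_assoc, ee, ← mul_assoc, ff]
  · have h1 : o (hs a 0 0) * av K o 1 0 = av K o 1 a * o (hs a 0 0) := by
      simp [av, mul_sum, sum_mul, ← o.map_mul, hs_mul, mul_comm a]
    have h2 : Z * (av K o 1 0 * av K o 1 a) = av K o 1 0 * av K o 1 a := by
      rw [hZ]
      refine av_abs o hl fun m => ?_
      have e : hs 0 (m * 0) (m * 1) =
          hs 0 (-(m / a) * 1) (-(m / a) * 0) * hs 0 (m / a * 1) (m / a * a) := by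
        simp [hs_mul, ha]
      rw [e, o.map_mul, mul_assoc, ← mul_assoc (o (hs 0 (m / a * 1) _)), (hs_av o _ _ _ _).eq,
        mul_assoc, mul_av, ← mul_assoc, mul_av]
    have h3 : Commute (o (hs a 0 0)) (1 - Z) := (Commute.one_right _).sub_right (cz _)
    calc _ = (1 - Z) * av K o 1 0 * (o (hs a 0 0) * (1 - Z)) * av K o 1 0 := by
          simp only [mul_assoc]
      _ = (1 - Z) * (av K o 1 0 * (1 - Z)) * (o (hs a 0 0) * av K o 1 0) := by
          rw [h3.eq]; simp only [mul_assoc]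
      _ = (1 - Z) * ((1 - Z) * (av K o 1 0 * av K o 1 a)) * o (hs a 0 0) := by
          rw [← (cf 0).eq, h1]; simp only [mul_assoc]
      _ = 0 := by rw [sub_mul 1 Z (av K o 1 0 * _), h2]; simp

end idem

/-! ### The matrix identity -/

section ident

variable {K T B I V : Type} [Field K] [Fintype T] [Fintype B] [Fintype I] [Fintype V]
  [DecidableEq B] [DecidableEq V] [DecidableEq T] [DecidableEq I] {D : ℕ} (d : Des K T B I V D)
  {β : T × T → Equiv.Perm I} {i₀ : I} {G S : Type} [Group G] [Ring S] [Algebra K S] (o : G →* S)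
  {x : T → G} {γ : (T × I × V) ⊕ (T × B) × I → G} {z : G} (hz : ∀ s, Commute (x s) z)
  (hγ : ∀ t s i, γ (.inr ((t, d.cl s), β (t, s) i)) =
    γ (.inl (t, i, d.ν t s i)) * x s * if s = t ∧ i = i₀ then z else 1)
include hz hγ

theorem ident {φ : T → K} (hφ : φ ∈ d.Φ) (t : T) :
    ∑ b, (∑ j, o (γ (.inr ((t, b), j)))) * ∑ s with d.cl s = b, φ s • o (x s)⁻¹ =
      φ t • (o (γ (.inl (t, i₀, d.ν t t i₀))) * (o z - 1)) := by
  have hF : ∑ s, ∑ i, φ s • o (γ (.inl (t, i, d.ν t s i))) = 0 := by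
    rw [sum_comm]
    refine sum_eq_zero fun i _ => ?_
    rw [← sum_fiberwise (s := univ) (g := fun s => d.ν t s i)]
    refine sum_eq_zero fun v _ => ?_
    rw [sum_congr rfl fun s hs => by rw [(mem_filter.1 hs).2], ← sum_smul, d.sum φ hφ, zero_smul]
  have hG : ∀ s i, o (γ (.inr ((t, d.cl s), β (t, s) i))) * o (x s)⁻¹ -
      o (γ (.inl (t, i, d.ν t s i))) = if s = t ∧ i = i₀ then
        o (γ (.inl (t, i₀, d.ν t t i₀))) * (o z - 1) else 0 := fun s i => by
    rw [hγ, ← o.map_mul]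
    split_ifs with e
    · rw [mul_assoc _ (x s), (hz s).eq, ← mul_assoc, mul_inv_cancel_right, o.map_mul, e.1, e.2,
        mul_sub, mul_one]
    · simp
  calc _ = ∑ b, ∑ s with d.cl s = b, φ s • ∑ j, o (γ (.inr ((t, d.cl s), j))) * o (x s)⁻¹ := by
        refine sum_congr rfl fun b _ => ?_
        rw [mul_sum]
        refine sum_congr rfl fun s hs => ?_
        rw [(mem_filter.1 hs).2, mul_smul_comm, sum_mul]
    _ = ∑ s, φ s • ∑ i, o (γ (.inr ((t, d.cl s), β (t, s) i))) * o (x s)⁻¹ - 0 := by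
        rw [sum_fiberwise, sub_zero]
        refine sum_congr rfl fun s _ => ?_
        rw [← Equiv.sum_comp (β (t, s))]
    _ = _ := by
        rw [← hF, ← sum_sub_distrib]
        simp only [← smul_sum, ← smul_sub, ← sum_sub_distrib, hG]
        simp [ite_and]

theorem exists_XY (w : S) : ∃ (X : Option B → B → S) (Y : B → Option B → S),
    (∀ u, (∀ s, Commute u (o (x s)⁻¹)) → ∀ b k, Commute u (Y b k)) ∧
    ∀ j k, ∑ b, X j b * Y b k = if j = k then w * (o z - 1) else 0 := by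
  obtain ⟨J, hJ⟩ := (finrank_le_iff_exists_linearMap (R := K) (M := Option B → K)
    (M' := d.Φ)).1 (by simpa using d.dim)
  obtain ⟨ρ, hρ⟩ := (d.Φ.subtype ∘ₗ J).exists_leftInverse_of_injective
    (LinearMap.ker_eq_bot.2 (d.Φ.injective_subtype.comp hJ))
  refine ⟨fun j b => ∑ t, ρ (Pi.single t 1) j •
      (w * o (γ (.inl (t, i₀, d.ν t t i₀)))⁻¹ * ∑ j, o (γ (.inr ((t, b), j)))),
    fun b k => ∑ s with d.cl s = b, (J (Pi.single k 1)).1 s • o (x s)⁻¹,
    fun u hu b k => Commute.sum_right _ _ _ fun s _ => (hu s).smul_right _, fun j k => ?_⟩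
  have h0 : ∀ t, ∑ b, w * o (γ (.inl (t, i₀, d.ν t t i₀)))⁻¹ * (∑ j, o (γ (.inr ((t, b), j)))) *
      ∑ s with d.cl s = b, (J (Pi.single k 1)).1 s • o (x s)⁻¹ =
      (J (Pi.single k 1)).1 t • (w * (o z - 1)) := fun t => by
    simp only [mul_assoc]
    rw [← mul_sum, ← mul_sum, ident d o hz hγ (J _).2, mul_smul_comm, mul_smul_comm,
      ← mul_assoc (o _), ← o.map_mul, inv_mul_cancel, o.map_one, one_mul]
  simp only [sum_mul (univ : Finset T), smul_mul_assoc]
  rw [sum_comm]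
  simp only [← smul_sum, h0, smul_smul, ← sum_smul]
  have h1 : ρ (J (Pi.single k 1)).1 j = Pi.single (M := fun _ => K) k 1 j :=
    congrFun (LinearMap.congr_fun hρ (Pi.single k 1)) j
  rw [← univ_sum_single (J (Pi.single k 1)).1, map_sum, Finset.sum_apply] at h1
  rw [sum_congr rfl fun t _ => show _ = ρ (Pi.single t ((J (Pi.single k 1)).1 t)) j by
    rw [mul_comm, ← smul_eq_mul, ← Pi.smul_apply, ← map_smul, ← Pi.single_smul', smul_eq_mul,
      mul_one], h1]
  simp [Pi.single_apply]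

end ident

/-! ### The group -/

theorem main (p : ℕ) [Fact p.Prime] : ∃ (G : Type) (_ : Group G), IsHyp G ∧ ¬ Sofic G ∧
    ∃ a b : MonoidAlgebra (ZMod p) G, a * b = 1 ∧ b * a ≠ 1 := by
  classical
  obtain ⟨g, hg⟩ := scz 4
  obtain ⟨T, B, I, V, _, _, _, _, _, _, D, d, hD⟩ := desp p g
  obtain ⟨i₀⟩ : Nonempty I := Fintype.card_pos_iff.1 (by omega)
  obtain ⟨β, b1, b2⟩ := exists_beta d hD
  obtain ⟨l, hl, pl⟩ := Nat.exists_infinite_primes (p + 2 * Fintype.card T + Fintype.card B + 3)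
  have : Fact l.Prime := ⟨pl⟩
  have l0 : (l : ZMod p) ≠ 0 := fun h => by
    have := (Nat.prime_dvd_prime_iff_eq Fact.out pl).1 ((ZMod.natCast_eq_zero_iff l p).1 h)
    omega
  obtain ⟨G, _, x, γ, ζ, a1, a2, a3, -, a4⟩ := hg _ _ _ (lg0 d β) b1 b2 _ _ (jz l)
    (fun e => if e.1.2 = e.1.1 ∧ e.2 = i₀ then .ofAdd 1 else 1) jz_comm
  have hγ : ∀ t s i, γ (.inr ((t, d.cl s), β (t, s) i)) = γ (.inl (t, i, d.ν t s i)) * x s *
      if s = t ∧ i = i₀ then ζ (hs 0 0 1) else 1 := fun t s i => by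
    refine (a4 ((t, s), i)).trans ?_
    split_ifs
    · rfl
    · rw [map_one, map_one]; rfl
  refine ⟨G, inferInstance, a1, MP_d7b7be_al.base_rank _ T B I V D d β i₀ G
    (Sum.elim x fun t => x t * ζ (hs 0 0 1)) γ (fun ⟨⟨t, s⟩, i⟩ => ?_) fun t k k0 k1 h => ?_, ?_⟩
  · refine (hγ t s i).trans ?_
    simp only [Des.lg]
    split_ifs with e
    · rw [mul_assoc, e.1]; rfl
    · rw [mul_one]; rfl
  · rw [Sum.elim_inl, Sum.elim_inr, (a3 t _).eq, mul_inv_rev, mul_inv_cancel_left, inv_pow,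
      inv_eq_one, ← map_pow, map_eq_one_iff _ a2] at h
    have h1 : jz l (.ofAdd 1 ^ k) = 1 := ((jz l).map_pow _ k).trans h
    have h2 : (k : ZMod l) = 0 := by simpa [jz, hs_one] using h1
    have := Nat.le_of_dvd k0 ((ZMod.natCast_eq_zero_iff k l).1 h2)
    omega
  let o := MonoidAlgebra.of (ZMod p) G
  obtain ⟨ε, w, e0, e1, e2, e3, e4⟩ := exists_eps (o.comp ζ) l0
    (Finsupp.lapply 1 ∘ₗ (MonoidAlgebra.coeffLinearEquiv (ZMod p)).toLinearMap)
    (by simp [MonoidAlgebra.one_def]) fun y hy => by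
      simpa [o] using Finsupp.single_eq_of_ne' ((map_ne_one_iff _ a2).2 hy)
  obtain ⟨X, Y, c1, c2⟩ := exists_XY d o (fun s => a3 s _) hγ w
  obtain ⟨κ⟩ := Function.Embedding.nonempty_of_card_le (α := Option B) (β := ZMod l) (by
    rw [ZMod.card, Fintype.card_option]; omega)
  have c3 := c1 ε fun s => (e3 _ fun y => ((a3 s y).inv_left.map o)).symm
  refine corner some (Option.some_injective B) none (fun _ => nofun) ε e0
    (fun j => o (ζ (hs (κ j) 0 0)) * ε) (fun j => ε * o (ζ (hs (-κ j) 0 0))) (fun i j => ?_)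
    (fun j => by rw [mul_assoc, e1]) (fun j => by rw [← mul_assoc, e1]) X Y fun j k => ?_
  · rw [mul_assoc, ← mul_assoc (o _), ← o.map_mul, ← ζ.map_mul, hs_mul, ← mul_assoc]
    split_ifs with e
    · rw [e, hs_one.2 (by simp), ζ.map_one, o.map_one, mul_one, e1]
    · simpa using e4 (-κ i + κ j) fun h => e (κ.injective (neg_add_eq_zero.1 h))
  · simp only [mul_assoc (X j _), (c3 _ _).eq]
    simp only [← mul_assoc (X j _), ← sum_mul, c2]
    split_ifs
    · rw [show w * (o (ζ (hs 0 0 1)) - 1) * ε = ε from e2, e1, e1]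
    · simp

/-- A linear cellular automaton which is injective and not surjective. -/
theorem automaton {K G : Type} [Field K] [Group G] [TopologicalSpace K] [DiscreteTopology K]
    {a b : MonoidAlgebra K G} (h1 : a * b = 1) (h2 : b * a ≠ 1) :
    ∃ τ : (G → K) → G → K, Continuous τ ∧
      (∀ g ξ, τ (fun h => ξ (g⁻¹ * h)) = fun h => τ ξ (g⁻¹ * h)) ∧
      Function.Injective τ ∧ ¬ Function.Surjective τ := by
  classical
  let ρ : G →* Module.End K (G → K) :=
    { toFun := fun h => LinearMap.funLeft K K (· * h)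
      map_one' := by ext; simp
      map_mul' := fun _ _ => by ext; simp [mul_assoc] }
  let T := MonoidAlgebra.lift K _ G ρ
  have hT : ∀ c ξ g, T c ξ g = ∑ h ∈ c.coeff.support, c.coeff h * ξ (g * h) := fun c ξ g => by
    simp [T, MonoidAlgebra.lift_apply, Finsupp.sum, ρ, LinearMap.sum_apply]
  have e : ∀ ξ, T a (T b ξ) = ξ := fun ξ => by
    rw [← Module.End.mul_apply, ← map_mul, h1, map_one, Module.End.one_apply]
  refine ⟨T b, continuous_pi fun g => ?_, fun g ξ => funext fun h => ?_,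
    Function.LeftInverse.injective e, fun hs => h2 ?_⟩
  · simp only [hT]
    exact continuous_finsetSum _ fun h _ =>
      (continuous_of_discreteTopology (f := (b.coeff h * ·))).comp (continuous_apply _)
  · simp only [hT, mul_assoc]
  · have e' : ∀ c : MonoidAlgebra K G, ∀ k, T c (Pi.single k 1) 1 = c.coeff k := fun c k => by
      simp +contextual [hT, Pi.single_apply]
    ext k
    obtain ⟨ξ, hξ⟩ := hs (Pi.single k 1)
    rw [← e', ← e', map_mul, map_one, Module.End.mul_apply, ← hξ, e, Module.End.one_apply]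

end Pool.Agent.P.MP_e79ed6_al.Df
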