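import Pool.Agent.P.MP_e79ed6_al.Defs
import Pool.Agent.P.MP_4b59b0_al.Bowditch

set_option autoImplicit false

namespace Pool.Agent.P.MP_e79ed6_al

open Pool.Agent.P.MP_4b59b0_al Finset

theorem qi : StmtQI := by
  intro V V' X X' φ δ C r hδ h1 h2 h3
  obtain ⟨δ₀, K, H⟩ := bowditch (C * (3 * r + 3 * δ + 1))
  have hd : ∀ a b, X'.d (φ a) (φ b) ≤ 3 * r + 3 * δ + 1 → X.d a b ≤ C * (3 * r + 3 * δ + 1) :=
    fun a b h => (h2 a b).trans (Nat.mul_le_mul_left _ h)
  choose p hp using h3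
  refine ⟨δ₀, (H V X (fun a b => {c | X'.Bt (2 * r) (φ a) (φ c) (φ b)}) (fun a b c h => h.symm)
    (fun a b => Sp.bt_left _ _ _) (fun a b => ?_) (fun a b e c hc => ?_)
    (fun a b c hab hc => ?_)).1⟩
  · obtain ⟨γ, g0, gn, hγ⟩ := X'.exists_geo (φ a) (φ b)
    have hm : ∀ i ≤ X'.d (φ a) (φ b), X'.Bt (2 * r) (φ a) (φ (p (γ i))) (φ b) := fun i hi => by
      have := (hγ.bt (Nat.zero_le i) hi le_rfl).move_mid (hp (γ i))
      rwa [g0, gn, zero_add] at this
    have hc : ∀ i ≤ X'.d (φ a) (φ b), Relation.ReflTransGen (fun c c' =>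
        c' ∈ {c | X'.Bt (2 * r) (φ a) (φ c) (φ b)} ∧ X.d c c' ≤ C * (3 * r + 3 * δ + 1)) a
        (p (γ i)) := by
      intro i
      induction i with
      | zero =>
        intro hi
        refine Relation.ReflTransGen.single ⟨hm 0 hi, hd _ _ ?_⟩
        have := hp (γ 0)
        rw [g0] at this ⊢
        omega
      | succ i ih =>
        intro hi
        refine (ih (by omega)).tail ⟨hm _ hi, hd _ _ ?_⟩
        have a1 := hp (γ i)
        have a2 := hp (γ (i + 1))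
        have a3 := hγ i (i + 1) (by omega) hi
        have a4 := X'.tri (φ (p (γ i))) (γ i) (φ (p (γ (i + 1))))
        have a5 := X'.tri (γ i) (γ (i + 1)) (φ (p (γ (i + 1))))
        have a6 := X'.symm (φ (p (γ i))) (γ i)
        omega
    refine (hc _ le_rfl).tail ⟨Sp.bt_right _ _ _, hd _ _ ?_⟩
    have a1 := hp (γ (X'.d (φ a) (φ b)))
    rw [gn] at a1 ⊢
    have a2 := X'.symm (φ (p (φ b))) (φ b)
    omega
  · obtain ⟨n, n1, n2⟩ := hδ.nb hc
    have key : ∀ u, X'.Bt (0 + δ) (φ u) n (φ e) → ∃ c', X'.Bt (2 * r) (φ u) (φ c') (φ e) ∧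
        X.d c c' ≤ C * (3 * r + 3 * δ + 1) := fun u hu => by
      obtain ⟨m, m1, m2⟩ := hδ.nb hu
      refine ⟨p m, by simpa using m1.move_mid (hp m), hd _ _ ?_⟩
      have a1 := hp m
      have a2 := X'.tri (φ c) n (φ (p m))
      have a3 := X'.tri n m (φ (p m))
      omega
    rcases hδ.l1 n1 (φ e) with h | h
    · obtain ⟨c', c1, c2⟩ := key a h
      exact ⟨c', Or.inl c1, c2⟩
    · obtain ⟨c', c1, c2⟩ := key b h
      exact ⟨c', Or.inr c1, c2⟩
  · refine hd _ _ ?_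
    have a1 := h1 a b
    have a2 : X'.d (φ a) (φ c) + X'.d (φ c) (φ b) ≤ X'.d (φ a) (φ b) + 2 * r := hc
    omega

section

variable {G : Type} [Group G]

/-- word length -/
noncomputable def qi_len (T : Finset G) (g : G) : ℕ :=
  sInf {n : ℕ | ∃ l : List G, l.length = n ∧ (∀ s ∈ l, s ∈ T ∨ s⁻¹ ∈ T) ∧ l.prod = g}

theorem qi_le (T : Finset G) (l : List G) (hl : ∀ s ∈ l, s ∈ T ∨ s⁻¹ ∈ T) :
    qi_len T l.prod ≤ l.length := Nat.sInf_le ⟨l, rfl, hl, rfl⟩

variable {T : Finset G} (hT : ∀ g : G, ∃ l : List G, (∀ s ∈ l, s ∈ T ∨ s⁻¹ ∈ T) ∧ l.prod = g)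
include hT

theorem qi_ex (g : G) :
    ∃ l : List G, l.length = qi_len T g ∧ (∀ s ∈ l, s ∈ T ∨ s⁻¹ ∈ T) ∧ l.prod = g := by
  obtain ⟨l, h1, h2⟩ := hT g
  exact Nat.sInf_mem (s := {n : ℕ | ∃ l : List G, l.length = n ∧
    (∀ s ∈ l, s ∈ T ∨ s⁻¹ ∈ T) ∧ l.prod = g}) ⟨_, l, rfl, h1, h2⟩

theorem qi_mul (g h : G) : qi_len T (g * h) ≤ qi_len T g + qi_len T h := by
  obtain ⟨l, l1, l2, l3⟩ := qi_ex hT g
  obtain ⟨m, m1, m2, m3⟩ := qi_ex hT h
  have := qi_le T (l ++ m) fun s hs => (List.mem_append.mp hs).elim (l2 s) (m2 s)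
  rwa [List.prod_append, List.length_append, l1, l3, m1, m3] at this

theorem qi_inv (g : G) : qi_len T g⁻¹ ≤ qi_len T g := by
  obtain ⟨l, l1, l2, l3⟩ := qi_ex hT g
  have := qi_le T (l.map fun x => x⁻¹).reverse fun s hs => by
    obtain ⟨x, hx, rfl⟩ := List.mem_map.mp (List.mem_reverse.mp hs)
    simpa [or_comm] using l2 x hx
  rwa [← List.prod_inv_reverse, List.length_reverse, List.length_map, l1, l3] at this

/-- the word metric -/
noncomputable def qi_sp : Sp G where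
  d a b := qi_len T (a⁻¹ * b)
  d_self a := by simpa using qi_le T [] (by simp)
  eq_of a b h := by
    obtain ⟨l, l1, -, l3⟩ := qi_ex hT (a⁻¹ * b)
    rw [h, List.length_eq_zero_iff] at l1
    rw [l1, List.prod_nil] at l3
    exact inv_mul_eq_one.mp l3.symm
  symm a b := le_antisymm (by simpa using qi_inv hT (b⁻¹ * a)) (by simpa using qi_inv hT (a⁻¹ * b))
  tri a b c := by simpa [mul_assoc] using qi_mul hT (a⁻¹ * b) (b⁻¹ * c)
  geod a b k hk := by
    obtain ⟨l, l1, l2, l3⟩ := qi_ex hT (a⁻¹ * b)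
    have h1 := qi_le T (l.take k) fun s hs => l2 s (List.mem_of_mem_take hs)
    have h2 := qi_le T (l.drop k) fun s hs => l2 s (List.mem_of_mem_drop hs)
    have h3 := qi_mul hT (l.take k).prod (l.drop k).prod
    rw [List.prod_take_mul_prod_drop, l3] at h3
    rw [List.length_take] at h1
    rw [List.length_drop] at h2
    have e1 : a⁻¹ * (a * (l.take k).prod) = (l.take k).prod := by group
    have e2 : (a * (l.take k).prod)⁻¹ * b = (l.drop k).prod := by
      rw [mul_inv_rev, mul_assoc, ← l3, inv_mul_eq_iff_eq_mul, List.prod_take_mul_prod_drop]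
    refine ⟨a * (l.take k).prod, ?_, ?_⟩
    · rw [e1]; omega
    · rw [e1, e2]; omega

end

theorem word : StmtWord := by
  classical
  intro S G _ _ _ π hπ
  let T : Finset G := univ.image fun s => π (FreeGroup.of s)
  let ev : S × Bool → G := fun c => cond c.2 (π (FreeGroup.of c.1)) (π (FreeGroup.of c.1))⁻¹
  have hev : ∀ w : List (S × Bool), π (FreeGroup.mk w) = (w.map ev).prod := fun w => by
    rw [FreeGroup.lift_unique π (f := fun s => π (FreeGroup.of s)) fun _ => rfl,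
      FreeGroup.lift_mk]
  have hmem : ∀ w : List (S × Bool), ∀ s ∈ w.map ev, s ∈ T ∨ s⁻¹ ∈ T := fun w s hs => by
    obtain ⟨⟨c, b⟩, -, rfl⟩ := List.mem_map.mp hs
    cases b <;> simp [ev, T]
  have hT : ∀ g : G, ∃ l : List G, (∀ s ∈ l, s ∈ T ∨ s⁻¹ ∈ T) ∧ l.prod = g := fun g => by
    obtain ⟨f, rfl⟩ := hπ g
    exact ⟨_, hmem f.toWord, by rw [← hev, FreeGroup.mk_toWord]⟩
  have h1 : ∀ f, qi_len T (π f) ≤ FreeGroup.norm f := fun f => by
    have := qi_le T _ (hmem f.toWord)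
    rwa [← hev, FreeGroup.mk_toWord, List.length_map] at this
  have hlift : ∀ l : List G, (∀ s ∈ l, s ∈ T ∨ s⁻¹ ∈ T) → ∃ w : List (S × Bool), w.map ev = l := by
    intro l
    induction l with
    | nil => exact fun _ => ⟨[], rfl⟩
    | cons s l ih =>
      intro hl
      obtain ⟨w, rfl⟩ := ih fun s hs => hl s (List.mem_cons_of_mem _ hs)
      rcases hl s List.mem_cons_self with h | h
      · obtain ⟨c, -, hc⟩ := mem_image.mp h
        exact ⟨(c, true) :: w, by simp [ev, hc]⟩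
      · obtain ⟨c, -, hc⟩ := mem_image.mp h
        exact ⟨(c, false) :: w, by simp [ev, hc]⟩
  refine ⟨qi_sp hT, fun f f' => ?_, fun f b => ?_, fun ⟨δ, hδ⟩ => ⟨T, ?_, qi_len T, fun _ => rfl,
    δ, fun x y z w => ?_⟩⟩
  · have := h1 (f⁻¹ * f')
    rwa [map_mul, map_inv] at this
  · obtain ⟨l, l1, l2, l3⟩ := qi_ex hT ((π f)⁻¹ * b)
    obtain ⟨w, rfl⟩ := hlift l l2
    rw [← hev] at l3
    refine ⟨f * FreeGroup.mk w, by rw [map_mul, l3]; group, ?_⟩
    rw [inv_mul_cancel_left]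
    change qi_len T _ = _
    have a1 := h1 (FreeGroup.mk w)
    have a2 := FreeGroup.norm_mk_le (L₁ := w)
    rw [List.length_map] at l1
    rw [l3] at a1
    omega
  · rw [eq_top_iff]
    intro g _
    obtain ⟨l, l1, rfl⟩ := hT g
    refine Subgroup.list_prod_mem _ fun s hs => ?_
    rcases l1 s hs with h | h
    · exact Subgroup.subset_closure h
    · exact (Subgroup.inv_mem_iff _).mp (Subgroup.subset_closure h)
  · have a1 := hδ x z w y
    have a2 := (qi_sp hT).symm x w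
    have a3 := (qi_sp hT).symm z y
    have a4 := (qi_sp hT).symm z w
    simp only [qi_sp] at a1 a2 a3 a4
    omega

end Pool.Agent.P.MP_e79ed6_al
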