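import Pool.Agent.P.MP_e79ed6_al.Ball
import Pool.Agent.P.MP_e79ed6_al.Des
import Pool.Agent.P.MP_e79ed6_al.Dir
import Pool.Agent.P.MP_e79ed6_al.Girth
import Pool.Agent.P.MP_e79ed6_al.Orb
import Pool.Agent.P.MP_e79ed6_al.Phi
import Pool.Agent.P.MP_e79ed6_al.QI
import Pool.Agent.P.MP_e79ed6_al.Rank
import Pool.Agent.P.MP_e79ed6_al.SC
import Pool.Agent.P.MP_e79ed6_al.Switch

set_option autoImplicit false

namespace Pool.Agent.P.MP_e79ed6_al

/-- There is a hyperbolic group which is not sofic. -/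
theorem exists_hyp_not_sofic : ∃ (G : Type) (_ : Group G), IsHyp G ∧ ¬ Sofic G :=
  final (des dir phi) (switch ball add) girth pieces (rank orb dim sumE) (sc qi word)

end Pool.Agent.P.MP_e79ed6_al
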