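import Pool.Agent.P.MP_e79ed6_al.Main

/-! Graphical small cancellation quotients of free groups are torsion-free. -/

set_option autoImplicit false

namespace Pool.Agent.P.MP_e79ed6_al

open Pool.Agent.P.MP_4b59b0_al Sp FreeGroup LG

attribute [local instance] ConeOff.act QS.act

theorem tf_quot {V : Type} {X : Sp V} {H : Type} [Group H] [MulAction H V] {U : Type}
    [MulAction H U] {M Λ : ℕ} {P : Apx X H U M} {R : Rot P Λ} (Q : QS R) (iso : X.Iso H)
    (tf : ∀ (g : H) (n : ℕ), 0 < n → g ^ n = 1 → g = 1) (hΛ : 100 * M ≤ Λ) {δ ρ : ℕ}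
    (sep : ∀ u u', u ≠ u' → ρ < X.d (P.ω u) (P.ω u')) (hρ : 1000 * δ ≤ ρ) (pos : 1 ≤ δ)
    (stab : ∀ (u : U) (g : H), g • u = u → g ∈ R.G u) (nt : ∀ u, ∃ r ∈ R.G u, r ≠ 1)
    (hyp : Q.X'.Hyp δ) (x : V) (g : H ⧸ R.N) (n : ℕ) (hn : 0 < n) (hg : g ^ n = 1) : g = 1 := by
  have rigid : ∀ (u : U) (g : H ⧸ R.N),
      Q.X'.d (Q.pr (P.ω u)) (g • Q.pr (P.ω u)) ≤ ρ → g = 1 := by
    intro u g hg
    obtain ⟨k, rfl, e⟩ := Q.lift_el g (P.ω u)
    rw [← P.ω_smul] at e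
    rw [QuotientGroup.eq_one_iff]
    refine R.le_N u (stab u k ?_)
    by_contra hc
    have := sep _ _ (Ne.symm hc); omega
  have small : ∀ {g : H}, (g : H ⧸ R.N) ≠ 1 → ∀ {x : V}, X.d x (g • x) ≤ 100 * δ →
      Sm P M x (g • x) := by
    intro g g1 x hg u
    refine P.of_not_bt fun hc => g1 (rigid u _ ?_)
    have h1 := iso.disp_move g (P.ω u) x
    have h2 := Q.le (P.ω u) (g • P.ω u)
    rw [Q.eqv] at h2
    have := X.symm x (P.ω u)
    unfold Bt at hc; omega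
  by_contra g1
  obtain ⟨p, hp⟩ := circ (Q.iso' iso) hyp hn hg (Q.pr x)
  obtain ⟨p, rfl⟩ := Q.surj p
  obtain ⟨g, rfl, e⟩ := Q.lift_el g p
  have s1 := small g1 (x := p) (by have := hp 1; rw [pow_one] at this; omega)
  have s0 : Sm P M p p := fun u => P.of_not_bt fun hb => by
    have := d_pos (X := X) (s1.not_apex nt (by omega) u)
    unfold Bt at hb; rw [X.d_self] at hb; omega
  have lifts : ∀ i : ℕ, ∃ k : H, (k : H ⧸ R.N) = (g : H ⧸ R.N) ^ i ∧ Sm P M p (k • p) := by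
    intro i
    by_cases h1 : (g : H ⧸ R.N) ^ i = 1
    · exact ⟨1, h1.symm, by rwa [one_smul]⟩
    · obtain ⟨k, a1, a2⟩ := Q.lift_el ((g : H ⧸ R.N) ^ i) p
      exact ⟨k, a1, small (a1 ▸ h1) (by have := hp i; omega)⟩
  have key : ∀ i : ℕ, Sm P M p (g ^ i • p) := by
    intro i
    induction i with
    | zero => rwa [pow_zero, one_smul]
    | succ i ih =>
      obtain ⟨k, a1, a2⟩ := lifts (i + 1)
      have := Sm.uniq iso nt hΛ (g := k) (g' := g ^ (i + 1)) (x := p) (θ := M + M + M)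
        (by omega) a1 (by rw [pow_succ, mul_smul]; exact (a2.symm.tri ih).tri (s1.smul _))
      rwa [← this]
  have := Sm.uniq iso nt hΛ (g := 1) (g' := g ^ n) (x := p) (θ := M) (by omega)
    hg.symm (by rw [one_smul]; exact key n)
  exact g1 (by rw [tf g n hn this.symm]; rfl)

theorem sc_tf (c : ℕ) : ∃ g : ℕ, ∀ (Ed N S : Type) [Fintype N] [Fintype S] [DecidableEq S]
    (Γ : LG Ed N S), Γ.Girth g → Γ.Pieces c →
    ∃ (G : Type) (_ : Group G) (x : S → G) (γ : N → G), IsHyp G ∧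
      (∀ (a : G) (n : ℕ), 0 < n → a ^ n = 1 → a = 1) ∧
      (∀ e, γ (Γ.en e false) = γ (Γ.en e true) * x (Γ.lab e)) ∧
      ∀ s s' k, s ≠ s' → 0 < k → (x s * (x s')⁻¹) ^ k ≠ 1 := by
  classical
  have h1 := qi
  have h2 := word
  obtain ⟨δ₀, K, h⟩ := cone_gen
  obtain ⟨ε, hε⟩ : ∃ ε, ε = 2 * c + 6 := ⟨_, rfl⟩
  obtain ⟨ρ, hρ⟩ : ∃ ρ, ρ = 1000 * (2 * δ₀ + 2) := ⟨_, rfl⟩
  obtain ⟨M, C, hM, h⟩ := h ε (100 * ε) ρ le_rfl (by omega)
  refine ⟨100 * M + 100 * ε, fun Ed N S _ _ _ Γ hg hc => ?_⟩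
  have F : Fam (tree S) Γ.Y ε := hε ▸ fam hc
  have iso := tree_iso S
  obtain ⟨Z, z1, z2⟩ := h _ (tree S) (FreeGroup S) Γ.U Γ.Y F iso Y_eqv
  let R : Rot Z.P (100 * M) :=
    { G := fun u => MulAction.stabilizer (FreeGroup S) u
      conj := fun g u r hr => by
        rw [MulAction.mem_stabilizer_iff] at *
        rw [mul_smul, inv_smul_smul, mul_smul, hr]
      fix := fun u r hr => hr
      rot := fun u r a hr r1 => Z.rot r u _ _ a hr (disp hg hr r1) le_rfl }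
  have nt : ∀ u, ∃ r ∈ R.G u, r ≠ 1 := by
    rintro ⟨q, g, g1, g2⟩
    exact ⟨g, Subtype.ext g2, g1⟩
  have cl : ∀ {z : N} {g : FreeGroup S}, Γ.Rf z g z → g ∈ R.N := by
    intro z g hz
    by_cases g1 : g = 1
    · rw [g1]; exact one_mem _
    obtain ⟨u, hu⟩ := closed hz g1
    exact R.le_N u hu
  let π : FreeGroup S →* FreeGroup S ⧸ R.N := QuotientGroup.mk' R.N
  have cl' : ∀ {y z : N} {f f' : FreeGroup S}, Γ.Rf y f z → Γ.Rf y f' z → π f = π f' := by
    intro y z f f' a b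
    exact QuotientGroup.eq.2 (cl (a.inv.mul b))
  have hp : ∀ y z : N, ∃ f, (∃ f', Γ.Rf y f' z) → Γ.Rf y f z := by
    intro y z
    by_cases hh : ∃ f', Γ.Rf y f' z
    · obtain ⟨f, hf⟩ := hh; exact ⟨f, fun _ => hf⟩
    · exact ⟨1, fun h => absurd h hh⟩
  choose pth hpth using hp
  let cn : Setoid N := ⟨fun y z => ∃ f, Γ.Rf y f z, ⟨fun y => ⟨1, rf_one y⟩,
    fun ⟨f, hf⟩ => ⟨_, hf.inv⟩, fun ⟨f, hf⟩ ⟨f', hf'⟩ => ⟨_, hf.mul hf'⟩⟩⟩
  let rep : N → N := fun y => (Quotient.mk cn y).out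
  have hrep : ∀ y, Γ.Rf (rep y) (pth (rep y) y) y := fun y => hpth _ _ (Quotient.mk_out (s := cn) y)
  obtain ⟨X, x1, x2, x3⟩ := h2 S _ π (QuotientGroup.mk'_surjective _)
  obtain ⟨Q⟩ := exists_QS R Z.iso
  have hyp := (Q.rips Z.iso le_rfl Z.hyp (by omega) Z.sep).hyp
  refine ⟨FreeGroup S ⧸ R.N, inferInstance, fun s => π (of s), fun y => π (pth (rep y) y),
    x3 ?_, tf_quot Q Z.iso (fun a n hn ha => (pow_eq_one_iff_left (by omega)).1 ha) le_rfl Z.sep
      hρ.ge (by omega) (fun u g hg => hg) nt hyp (Z.ι 1), fun e => ?_,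
    fun s s' k hs hk hc => ?_⟩
  · let C₀ := Finset.univ.sup fun p : N × N => norm (pth p.1 p.2)
    have hφ : ∀ f : FreeGroup S, π f • Q.pr (Z.ι 1) = Q.pr (Z.ι f) := by
      intro f
      have := Q.eqv f (Z.ι 1)
      rw [← Z.ι_smul, smul_eq_mul, mul_one] at this
      exact this.symm
    refine h1 _ _ X Q.X' (fun a => a • Q.pr (Z.ι 1)) _ (C + C₀) (ρ + 1) hyp (fun a b => ?_)
      (fun a b => ?_) (fun c => ?_)
    · obtain ⟨f, rfl⟩ := QuotientGroup.mk'_surjective R.N a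
      obtain ⟨f', rfl, e⟩ := x2 f b
      change Q.X'.d (π f • _) _ ≤ X.d (π f) _
      rw [hφ, hφ, e]
      refine (Q.le _ _).trans ?_
      have a1 := Z.shrink f f'
      change _ ≤ norm (f⁻¹ * f') + _ at a1
      by_cases h0 : norm (f⁻¹ * f') = 0
      · have : f = f' := (tree S).eq_of _ _ h0
        rw [this, Z.Z.d_self]; omega
      · by_contra hlt
        have a2 : 100 * ε * (norm (f⁻¹ * f') + 1) ≤ 100 * ε * Z.Z.d (Z.ι f) (Z.ι f') :=
          Nat.mul_le_mul_left _ (by omega)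
        have a3 : 2 * norm (f⁻¹ * f') ≤ 100 * ε * norm (f⁻¹ * f') :=
          Nat.mul_le_mul_right _ (by omega)
        rw [Nat.mul_succ] at a2
        omega
    · obtain ⟨f, rfl⟩ := QuotientGroup.mk'_surjective R.N a
      obtain ⟨f', rfl⟩ := QuotientGroup.mk'_surjective R.N b
      change X.d (π f) (π f') ≤ _ * Q.X'.d (π f • _) (π f' • _)
      rw [hφ, hφ]
      obtain ⟨n, hn, e⟩ := Q.ex (Z.ι f) (Z.ι f')
      have e2 : π (n • f') = π f' := by
        rw [smul_eq_mul, π.map_mul, show π n = 1 from (QuotientGroup.eq_one_iff n).2 hn, one_mul]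
      rw [e, ← Z.ι_smul, ← e2]
      refine z2 (fun x y => X.d (π x) (π y)) C₀ (fun x y z => X.tri _ _ _) x1 ?_ f (n • f')
      rintro u x ⟨z, a1⟩ y ⟨z', a2⟩
      have a3 := mk_eq.1 (a1.trans a2.symm)
      have a4 := cl' a3 (hpth z z' ⟨_, a3⟩)
      have a5 : π y = π (x * pth z z') := by rw [π.map_mul, ← a4, ← π.map_mul]; simp
      have a6 := x1 x (x * pth z z')
      rw [inv_mul_cancel_left, ← a5] at a6
      exact a6.trans (Finset.le_sup (f := fun p : N × N => norm (pth p.1 p.2))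
        (Finset.mem_univ (z, z')))
    · obtain ⟨c, rfl⟩ := Q.surj c
      obtain ⟨x, hx⟩ := z1 c
      exact ⟨π x, by rw [hφ]; exact (Q.le _ _).trans hx⟩
  · have e1 : rep (Γ.en e false) = rep (Γ.en e true) := by
      simp only [rep]
      congr 1
      exact (Quotient.sound (s := cn) ⟨_, rf_edge e⟩).symm
    rw [← π.map_mul]
    exact cl' (hrep _) (e1 ▸ (hrep _).mul (rf_edge e))
  · obtain ⟨g, hgd⟩ : ∃ g : FreeGroup S, g = of s * (of s')⁻¹ := ⟨_, rfl⟩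
    have g1 : g ≠ 1 := by
      rw [hgd, Ne, mul_inv_eq_one]
      exact fun h => hs (of_injective h)
    have g2 : (tree S).d 1 (g • (1 : FreeGroup S)) ≤ 2 := by
      change norm (1⁻¹ * (g * 1)) ≤ 2
      have := norm_mul_le (of s) (of s')⁻¹
      rw [norm_inv_eq, norm_of, norm_of] at this
      simpa [hgd] using this
    have g3 : ∀ u : Γ.U, g • u ≠ u := by
      intro u hu
      have a1 := F.rot iso Y_eqv hu (disp hg hu g1) 1
      have a2 := ang_le_two (X := tree S) (Y := Γ.Y) u 1 (g • 1)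
      omega
    have sm : Sm Z.P (100 * (2 + ε)) ((1 : FreeGroup S) • Z.ι 1) (g ^ k • Z.ι 1) := by
      intro u
      rw [one_smul, ← Z.ι_smul]
      exact Z.pa g u 1 2 k g2 (g3 u)
    have := Sm.uniq (R := R) Z.iso nt le_rfl (by omega) (by
      change π 1 = π (g ^ k)
      rw [π.map_one, π.map_pow, hgd, π.map_mul, π.map_inv]; exact hc.symm) sm
    exact g1 ((pow_eq_one_iff_left (by omega)).1 this.symm)

/-- There is a torsion-free hyperbolic group which is not sofic. -/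
theorem exists_tf : ∃ (G : Type) (_ : Group G), IsHyp G ∧
    (∀ (a : G) (n : ℕ), 0 < n → a ^ n = 1 → a = 1) ∧ ¬ Sofic G := by
  classical
  obtain ⟨g, hg⟩ := sc_tf 4
  obtain ⟨K, T, B, I, V, _, _, _, _, _, _, _, D, d, hD⟩ := des dir phi g
  obtain ⟨i₀⟩ : Nonempty I := Fintype.card_pos_iff.1 (by omega)
  obtain ⟨β, b1, b2⟩ := switch ball add (T × T) (T × B) (T × I × V) I d.cl' d.lam D g
    (fun s i j h => by simpa [Des.lam] using (Prod.ext_iff.1 (Prod.ext_iff.1 h).2).1)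
    (by
      rintro ⟨t, i, v⟩
      refine le_trans ?_ (d.dl t i v)
      rw [← Set.ncard_coe_finset]
      refine Set.ncard_le_ncard_of_injOn (fun e => e.1.2) ?_ ?_ (Set.toFinite _)
      · rintro ⟨⟨t', s⟩, i'⟩ h
        simp only [Des.lam, Set.mem_ofPred_eq, Prod.mk.injEq] at h
        obtain ⟨rfl, rfl, h⟩ := h
        simpa using h
      · rintro ⟨⟨t', s⟩, i'⟩ h ⟨⟨t'', s'⟩, i''⟩ h' e
        simp only [Des.lam, Set.mem_ofPred_eq, Prod.mk.injEq] at h h' e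
        obtain ⟨rfl, rfl, -⟩ := h
        obtain ⟨rfl, rfl, -⟩ := h'
        rw [e])
    (by
      rintro ⟨t, b⟩
      refine le_trans ?_ (d.dr b)
      rw [← Set.ncard_coe_finset]
      refine Set.ncard_le_ncard_of_injOn (fun e => e.2) ?_ ?_ (Set.toFinite _)
      · rintro ⟨t', s⟩ h
        simp only [Des.cl', Set.mem_ofPred_eq, Prod.mk.injEq] at h
        simpa using h.2
      · rintro ⟨t', s⟩ h ⟨t'', s'⟩ h' e
        simp only [Des.cl', Set.mem_ofPred_eq, Prod.mk.injEq] at h h' e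
        rw [h.1, h'.1, e])
    hD
  obtain ⟨G, _, x, γ, a1, a2, a3, a4⟩ := hg _ _ _ (d.lg β i₀) (girth _ _ _ _ g b2)
    (pieces K T B I V D d β i₀ b1)
  exact ⟨G, inferInstance, a1, a2, rank orb dim sumE K T B I V D d β i₀ G x γ a3
    fun t k hk => a4 _ _ k (by simp) hk⟩

end Pool.Agent.P.MP_e79ed6_al
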